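import Pool.Agent.Helper56.IT.Stmts
import Pool.Agent.Helper66.LW.Z

/-!
# Project IT (MP_a499ba_nt), block Z

Port of `LW.Z_up` to the real part of `H(n) + ∑ f(p) H(n/p)`, `H` complex.
-/

set_option autoImplicit false

namespace Pool.Agent.IT

open Finset MeasureTheory Filter Topology Pool.Agent.Helper5.RM Pool.Agent.Helper96.AF Pool.Agent.Helper66.LW

private theorem int52 (K : Ker) (r : ℕ) (h : ℕ → ℝ) (u : ℝ) {c : ℝ} (hc : 0 ≤ c) :
    IntervalIntegrable (fun v => Av h (v - c) * kf K r u v) volume (Vr r) (2 * Vr r) := by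
  have hV := Vr_pos r
  have h1 : IntervalIntegrable (fun v => Av h (v - c)) volume (Vr r) (2 * Vr r) := by
    rw [intervalIntegrable_iff]
    refine Measure.integrableOn_of_bounded (M := Real.exp (c / 2) * ∑ m ∈ Finset.Icc 1 (Y (r + 1)), |h m|) ?_ ?_ ?_
    · rw [Set.uIoc_of_le (by linarith)]
      exact measure_Ioc_lt_top.ne
    · exact ((measurable_Av h).comp (measurable_id.sub_const c)).aestronglyMeasurable
    · refine (ae_restrict_iff' measurableSet_uIoc).2 (Filter.Eventually.of_forall fun v hv => ?_)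
      rw [Set.uIoc_of_le (by linarith)] at hv
      have hfl : ⌊Real.exp (v - c)⌋₊ ≤ Y (r + 1) := by
        apply Nat.floor_le_of_le
        rw [← exp_two_Vr]
        exact Real.exp_le_exp.2 (by linarith [hv.2])
      unfold Av Hs
      rw [Real.norm_eq_abs, abs_mul, abs_of_pos (Real.exp_pos _)]
      refine mul_le_mul (Real.exp_le_exp.2 (by linarith [hv.1])) ?_ (abs_nonneg _) (Real.exp_pos _).le
      exact (Finset.abs_sum_le_sum_abs _ _).trans
        (Finset.sum_le_sum_of_subset_of_nonneg (Finset.Icc_subset_Icc le_rfl hfl) fun _ _ _ => abs_nonneg _)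
  exact h1.mul_continuousOn (continuous_kf K r u).continuousOn

private theorem shift52 (h : ℕ → ℝ) {p : ℕ} (hp : 0 < p) (v : ℝ) :
    (Real.sqrt p)⁻¹ * Av h (v - Real.log p) = Real.exp (-(v / 2)) * Hs h (⌊Real.exp v⌋₊ / p) := by
  have hp0 : (0 : ℝ) < p := by exact_mod_cast hp
  unfold Av
  have e1 : Real.exp (v - Real.log p) = Real.exp v / p := by rw [Real.exp_sub, Real.exp_log hp0]
  rw [e1, Nat.floor_div_natCast]
  have e2 : Real.exp (-((v - Real.log p) / 2)) = Real.exp (-(v / 2)) * Real.sqrt p := by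
    rw [show -((v - Real.log p) / 2) = -(v / 2) + Real.log p / 2 by ring, Real.exp_add, Real.exp_half,
      Real.exp_log hp0]
  rw [e2]
  have := Real.sqrt_pos.2 hp0
  field_simp

private theorem arct52 (u a b : ℝ) : ∫ v in a..b, 1 / (1 + (u - v) ^ 2) ≤ Real.pi := by
  rw [intervalIntegral.integral_comp_sub_left (fun x => 1 / (1 + x ^ 2)) u, integral_one_div_one_add_sq]
  have h1 := Real.arctan_lt_pi_div_two (u - a)
  have h2 := Real.neg_pi_div_two_lt_arctan (u - b)
  linarith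

/-- the sum over the primes of `BL r` of the smoothed terms as one integral -/
private theorem sum52 (K : Ker) (r : ℕ) (h s : ℕ → ℝ) (u : ℝ) :
    IntervalIntegrable (fun v => (Real.exp (-(v / 2)) * ∑ p ∈ BL r, s p * Hs h (⌊Real.exp v⌋₊ / p)) * kf K r u v)
      volume (Vr r) (2 * Vr r) ∧
    ∑ p ∈ BL r, s p * aC K r h u p = ∫ v in (Vr r)..(2 * Vr r),
      (Real.exp (-(v / 2)) * ∑ p ∈ BL r, s p * Hs h (⌊Real.exp v⌋₊ / p)) * kf K r u v := by
  have hlog : ∀ p : ℕ, 0 ≤ Real.log p := fun p => Real.log_natCast_nonneg p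
  have hpos : ∀ p ∈ BL r, 0 < p := fun p hp => ((mem_BL.1 hp).1).pos
  have hS : IntervalIntegrable (fun v => ∑ p ∈ BL r, s p * ((Real.sqrt p)⁻¹ * (Av h (v - Real.log p) * kf K r u v)))
      volume (Vr r) (2 * Vr r) := by
    have h1 := IntervalIntegrable.sum (μ := volume) (a := Vr r) (b := 2 * Vr r) (BL r)
      (f := fun p v => s p * ((Real.sqrt p)⁻¹ * (Av h (v - Real.log p) * kf K r u v)))
      (fun p _ => ((int52 K r h u (hlog p)).const_mul _).const_mul _)
    have h2 : (fun v => ∑ p ∈ BL r, s p * ((Real.sqrt p)⁻¹ * (Av h (v - Real.log p) * kf K r u v))) =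
        ∑ p ∈ BL r, fun v => s p * ((Real.sqrt p)⁻¹ * (Av h (v - Real.log p) * kf K r u v)) := by
      funext v
      rw [Finset.sum_apply]
    rw [h2]
    exact h1
  have heq : ∀ v, ∑ p ∈ BL r, s p * ((Real.sqrt p)⁻¹ * (Av h (v - Real.log p) * kf K r u v)) =
      (Real.exp (-(v / 2)) * ∑ p ∈ BL r, s p * Hs h (⌊Real.exp v⌋₊ / p)) * kf K r u v := by
    intro v
    rw [Finset.mul_sum, Finset.sum_mul]
    refine Finset.sum_congr rfl fun p hp => ?_
    have h1 := shift52 h (hpos p hp) v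
    calc s p * ((Real.sqrt p)⁻¹ * (Av h (v - Real.log p) * kf K r u v)) =
        s p * ((Real.sqrt p)⁻¹ * Av h (v - Real.log p)) * kf K r u v := by ring
      _ = _ := by rw [h1]; ring
  constructor
  · rw [← funext heq]
    exact hS
  · have e2 : ∑ p ∈ BL r, s p * aC K r h u p = ∫ v in (Vr r)..(2 * Vr r),
        ∑ p ∈ BL r, s p * ((Real.sqrt p)⁻¹ * (Av h (v - Real.log p) * kf K r u v)) := by
      rw [intervalIntegral.integral_finsetSum]
      · refine Finset.sum_congr rfl fun p _ => ?_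
        unfold aC
        rw [intervalIntegral.integral_const_mul, intervalIntegral.integral_const_mul]
      · intro p _
        exact ((int52 K r h u (hlog p)).const_mul _).const_mul _
    rw [e2]
    exact intervalIntegral.integral_congr fun v _ => heq v

/-- the bound for a pair of real functions -/
private theorem up52 (K : Ker) : ∃ C : ℝ, 0 < C ∧ ∃ r0 : ℕ, ∀ r : ℕ, r0 ≤ r → ∀ (h g s t : ℕ → ℝ) (lam : ℝ), 0 ≤ lam →
    (∀ n ∈ Finset.Icc (Y r) (Y (r + 1)), Hs h n + ((∑ p ∈ BL r, s p * Hs h (n / p)) + ∑ p ∈ BL r, t p * Hs g (n / p)) ≤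
      lam * Real.sqrt n) →
    ∀ α : ℝ, 0 ≤ α → α ≤ 1 / sr r → RC K r h (Ur r + α) + ((∑ p ∈ BL r, s p * aC K r h (Ur r + α) p) +
      ∑ p ∈ BL r, t p * aC K r g (Ur r + α) p) ≤ C * lam := by
  obtain ⟨C, hC, r0, hk⟩ := kf_le K
  refine ⟨C * Real.pi, by positivity, r0, fun r hr h g s t lam hlam hF α hα0 hα1 => ?_⟩
  set u := Ur r + α with hu
  have hV := Vr_pos r
  have hle : Vr r ≤ 2 * Vr r := by linarith
  have h0 : IntervalIntegrable (fun v => Av h v * kf K r u v) volume (Vr r) (2 * Vr r) := by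
    simpa using int52 K r h u le_rfl
  obtain ⟨i1, e1⟩ := sum52 K r h s u
  obtain ⟨i2, e2⟩ := sum52 K r g t u
  have heq : ∀ v, Av h v * kf K r u v +
      ((Real.exp (-(v / 2)) * ∑ p ∈ BL r, s p * Hs h (⌊Real.exp v⌋₊ / p)) * kf K r u v +
        (Real.exp (-(v / 2)) * ∑ p ∈ BL r, t p * Hs g (⌊Real.exp v⌋₊ / p)) * kf K r u v) =
      (Real.exp (-(v / 2)) * (Hs h ⌊Real.exp v⌋₊ + ((∑ p ∈ BL r, s p * Hs h (⌊Real.exp v⌋₊ / p)) +
        ∑ p ∈ BL r, t p * Hs g (⌊Real.exp v⌋₊ / p)))) * kf K r u v := by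
    intro v
    unfold Av
    ring
  have hint : IntervalIntegrable (fun v => (Real.exp (-(v / 2)) * (Hs h ⌊Real.exp v⌋₊ +
      ((∑ p ∈ BL r, s p * Hs h (⌊Real.exp v⌋₊ / p)) + ∑ p ∈ BL r, t p * Hs g (⌊Real.exp v⌋₊ / p)))) * kf K r u v)
      volume (Vr r) (2 * Vr r) := by
    rw [← funext heq]
    exact h0.add (i1.add i2)
  have e3 : RC K r h u + ((∑ p ∈ BL r, s p * aC K r h u p) + ∑ p ∈ BL r, t p * aC K r g u p) =
      ∫ v in (Vr r)..(2 * Vr r), (Real.exp (-(v / 2)) * (Hs h ⌊Real.exp v⌋₊ +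
        ((∑ p ∈ BL r, s p * Hs h (⌊Real.exp v⌋₊ / p)) + ∑ p ∈ BL r, t p * Hs g (⌊Real.exp v⌋₊ / p)))) * kf K r u v := by
    rw [e1, e2]
    unfold RC
    rw [← intervalIntegral.integral_add i1 i2, ← intervalIntegral.integral_add h0 (i1.add i2)]
    exact intervalIntegral.integral_congr fun v _ => heq v
  rw [e3]
  have hac : Continuous fun v : ℝ => 1 / (1 + (u - v) ^ 2) := by
    refine Continuous.div continuous_const (by fun_prop) fun v => ?_
    positivity
  have hp1 : ∀ v ∈ Set.Icc (Vr r) (2 * Vr r), (Real.exp (-(v / 2)) * (Hs h ⌊Real.exp v⌋₊ +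
      ((∑ p ∈ BL r, s p * Hs h (⌊Real.exp v⌋₊ / p)) + ∑ p ∈ BL r, t p * Hs g (⌊Real.exp v⌋₊ / p)))) * kf K r u v ≤
      lam * C * (1 / (1 + (u - v) ^ 2)) := by
    intro v hv
    have h1 := hF _ (floor_mem hv.1 hv.2)
    have h2 : Real.sqrt (⌊Real.exp v⌋₊ : ℝ) ≤ Real.exp (v / 2) := by
      rw [Real.exp_half]
      exact Real.sqrt_le_sqrt (Nat.floor_le (Real.exp_pos v).le)
    have h3 : Real.exp (-(v / 2)) * (Hs h ⌊Real.exp v⌋₊ + ((∑ p ∈ BL r, s p * Hs h (⌊Real.exp v⌋₊ / p)) +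
        ∑ p ∈ BL r, t p * Hs g (⌊Real.exp v⌋₊ / p))) ≤ lam := by
      calc _ ≤ Real.exp (-(v / 2)) * (lam * Real.exp (v / 2)) := by
            refine mul_le_mul_of_nonneg_left (h1.trans ?_) (Real.exp_pos _).le
            exact mul_le_mul_of_nonneg_left h2 hlam
        _ = lam := by
            rw [mul_left_comm, ← Real.exp_add]
            simp
    have h4 := hk r hr u (by linarith) (by linarith) v hv.1 hv.2
    calc _ ≤ lam * kf K r u v :=
          mul_le_mul_of_nonneg_right h3 (kf_nonneg K r u v)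
      _ ≤ lam * (C / (1 + (u - v) ^ 2)) := mul_le_mul_of_nonneg_left h4 hlam
      _ = lam * C * (1 / (1 + (u - v) ^ 2)) := by ring
  calc _ ≤ ∫ v in (Vr r)..(2 * Vr r), lam * C * (1 / (1 + (u - v) ^ 2)) :=
        intervalIntegral.integral_mono_on hle hint ((hac.intervalIntegrable _ _).const_mul _) hp1
    _ = lam * C * ∫ v in (Vr r)..(2 * Vr r), 1 / (1 + (u - v) ^ 2) := by
        rw [intervalIntegral.integral_const_mul]
    _ ≤ lam * C * Real.pi := mul_le_mul_of_nonneg_left (arct52 _ _ _) (by positivity)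
    _ = C * Real.pi * lam := by ring

private theorem fp_re52 (th : ℕ → ℝ) (T : Finset ℕ) (p : ℕ) : (fp th T p).re = sg T p * Real.cos (th p) := by
  unfold fp
  rw [Complex.re_ofReal_mul, mul_comm Complex.I, Complex.exp_ofReal_mul_I_re]

private theorem fp_im52 (th : ℕ → ℝ) (T : Finset ℕ) (p : ℕ) : (fp th T p).im = sg T p * Real.sin (th p) := by
  unfold fp
  rw [Complex.im_ofReal_mul, mul_comm Complex.I, Complex.exp_ofReal_mul_I_im]

private theorem Hc_re52 (h : ℕ → ℂ) (n : ℕ) : (Hc h n).re = Hs (fun n => (h n).re) n := by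
  unfold Hc Hs
  rw [Complex.re_sum]

private theorem Hc_im52 (h : ℕ → ℂ) (n : ℕ) : (Hc h n).im = Hs (fun n => (h n).im) n := by
  unfold Hc Hs
  rw [Complex.im_sum]

theorem stmtZ : StmtZ := by
  intro K
  obtain ⟨C, hC, r0, hk⟩ := up52 K
  refine ⟨C, hC, r0, fun r hr h th T lam hlam hF α hα0 hα1 => ?_⟩
  have h1 := hk r hr (fun n => (h n).re) (fun n => (h n).im) (fun p => sg T p * Real.cos (th p))
    (fun p => -(sg T p * Real.sin (th p))) lam hlam ?_ α hα0 hα1
  · refine le_of_eq_of_le ?_ h1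
    congr 1
    rw [← Finset.sum_add_distrib]
    exact Finset.sum_congr rfl fun p _ => by ring
  · intro n hn
    have h2 := hF n hn
    refine le_of_eq_of_le ?_ h2
    rw [Complex.add_re, Hc_re52, Complex.re_sum, ← Finset.sum_add_distrib]
    congr 1
    refine Finset.sum_congr rfl fun p _ => ?_
    rw [Complex.mul_re, fp_re52, fp_im52, Hc_re52, Hc_im52]
    ring

end Pool.Agent.IT
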