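import Pool.Agent.Helper55.IT.Mt

/-!
# Project IT (MP_a499ba_nt): the recurrence condition with windows `[X, K X log X]`
-/

set_option autoImplicit false

namespace Pool.Agent.IT

open MeasureTheory

/-- the condition on `t`: one-sided bounds in one direction on windows `[X, K X log X]`, one with `X ≥ K` for every `K`,
give bounds in this direction for all `x ≥ 1` -/
def DgW (a : ℕ → ℂ) (C t : ℝ) : Prop := ∀ φ B : ℝ, 0 ≤ B →
  (∀ K : ℝ, ∃ X : ℝ, K ≤ X ∧ ∀ x : ℝ, X ≤ x → x ≤ K * X * Real.log X →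
    (Complex.exp (Complex.I * φ) * mt a t x).re ≤ B * Real.sqrt x) →
  ∀ x : ℝ, 1 ≤ x → (Complex.exp (Complex.I * φ) * mt a t x).re ≤ (3 * B + C) * Real.sqrt x

/-- the recurrence block with windows: `DgW` outside a small proportion of every interval of length `H` -/
def StmtDgW (a : ℕ → ℂ) : Prop := ∃ C : ℝ, ∀ η : ℝ, 0 < η → ∃ H0 : ℝ, ∀ H : ℝ, H0 ≤ H → ∀ U : ℝ,
  volume {t : ℝ | U ≤ t ∧ t ≤ U + H ∧ ¬ DgW a C t} ≤ ENNReal.ofReal (η * H)

theorem DgW.dgAt {a : ℕ → ℂ} {C t : ℝ} (h : DgW a C t) : DgAt a C t := by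
  intro φ B x0 hB hx
  exact h φ B hB fun K => ⟨max K x0, le_max_left _ _, fun x hx1 _ => hx x ((le_max_right _ _).trans hx1)⟩

end Pool.Agent.IT
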