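import Pool.Agent.Helper52.IT.TwB
import Pool.Agent.Helper99.IT.RecC
import Pool.Agent.Helper71.IT.Rec
import Pool.Agent.Helper71.LA.Mean
import Pool.Agent.Helper55.IT.FinDir

/-!
# Project IT (MP_a499ba_nt): the rotated sums of the Möbius function, one-sided recurrence in every direction
-/

set_option autoImplicit false

open Complex Filter Topology MeasureTheory Set
open Pool.Agent.Helper57.Zeta
open Pool.Agent.Helper71.MR (mm rr ms cw cw_ne A0 mm_meas rr_meas mm_bd' rr_bd' Qf Qf_lip C54 C54_nonneg)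
open Pool.Agent.Helper71.LA (sys_ms)
open Pool.Agent.Helper99.IT (CR CR_nonneg tv99 mm_neg99)
open Pool.Agent.IT (Sw muc mt mt_eq DgAt StmtDg Jc abel71)

namespace Pool.Agent.Helper52.Tw

theorem mm_gm : Gm (cF mm) 1 := by
  refine ⟨?_, zero_le_one, fun t => ?_⟩
  · have := mm_meas
    unfold cF
    fun_prop
  · unfold cF
    rw [Complex.norm_real, Real.norm_eq_abs]
    exact mm_bd' t

theorem rr_gm : Gm (cF rr) (2 * (2 + 2 * C54)) := by
  refine ⟨?_, by have := C54_nonneg; positivity, fun t => ?_⟩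
  · have := rr_meas
    unfold cF
    fun_prop
  · unfold cF
    rw [Complex.norm_real, Real.norm_eq_abs]
    exact rr_bd' t

theorem PJ_add {G G' : ℝ → ℂ} {A A' : ℝ} (hG : Gm G A) (hG' : Gm G' A') (θ u : ℝ) :
    PJ (fun t => G t + G' t) θ u = PJ G θ u + PJ G' θ u := by
  unfold PJ Jv
  have h1 : ∫ w in (0:ℝ)..u, (G w + G' w) * cexp (cc θ * ((u : ℂ) - w)) =
      (∫ w in (0:ℝ)..u, G w * cexp (cc θ * ((u : ℂ) - w))) + ∫ w in (0:ℝ)..u, G' w * cexp (cc θ * ((u : ℂ) - w)) := by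
    rw [← intervalIntegral.integral_add (ii hG (g := fun w : ℝ => cexp (cc θ * ((u : ℂ) - w))) (by fun_prop) 0 u)
      (ii hG' (g := fun w : ℝ => cexp (cc θ * ((u : ℂ) - w))) (by fun_prop) 0 u)]
    apply intervalIntegral.integral_congr
    intro w _
    show (G w + G' w) * cexp (cc θ * ((u : ℂ) - w)) = _
    ring
  rw [h1]
  ring

theorem ms_split (θ u : ℝ) : PJ (cF ms) θ u = PJ (cF mm) θ u + PJ (cF rr) θ u := by
  rw [← PJ_add mm_gm rr_gm]
  congr 1
  funext t
  unfold cF ms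
  push_cast
  rfl

theorem mm_part (θ : ℝ) {u : ℝ} (hu : 0 ≤ u) :
    PJ (cF mm) θ u = ((Real.exp (-(u / 2)) : ℝ) : ℂ) * mt muc θ (Real.exp u) := by
  have h1 := abel71 θ u
  have h2 : mt muc θ (Real.exp u) = cexp (I * θ * u) * Sw muc θ (Real.exp u) := by
    rw [mt_eq, Real.log_exp]
    congr 2
    push_cast; ring
  have h3 : Jc θ mm u = Jv (cF mm) θ u := by
    unfold Jc Jv
    have h4 := intervalIntegral.integral_comp_sub_left (a := 0) (b := u)
      (fun w : ℝ => cF mm w * cexp (cc θ * ((u : ℂ) - w))) u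
    rw [sub_self, sub_zero] at h4
    rw [← h4, intervalIntegral.integral_of_le hu]
    rw [setIntegral_eq_of_subset_of_forall_sdiff_eq_zero measurableSet_Ioi (s := Ioc 0 u) Ioc_subset_Ioi_self]
    · apply setIntegral_congr_fun measurableSet_Ioc
      intro v _
      show (mm (u - v) : ℂ) * cexp ((I * θ - 1 / 2) * v) = cF mm (u - v) * cexp (cc θ * ((u : ℂ) - ((u - v : ℝ) : ℂ)))
      unfold cF cc
      congr 3
      push_cast; ring
    · intro v hv
      have hv1 : 0 < v := hv.1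
      have hv2 : u < v := by
        by_contra h
        exact hv.2 ⟨hv1, not_lt.mp h⟩
      rw [mm_neg99 (by linarith : u - v < 0)]
      simp
  rw [h2]
  unfold PJ
  rw [← h3]
  unfold cF
  rw [← h1]
  ring

theorem rr_part (θ : ℝ) {u : ℝ} (hu : 0 ≤ u) : ∃ E : ℂ, ‖E‖ ≤ CR ∧
    PJ (cF rr) θ u = cexp (cc θ * u) * ((rr 0 : ℂ) + E) := by
  set R : ℝ → ℝ := fun w => rr w * Real.exp (w / 2) with hR
  have hRe : ∀ w, R w = 2 - 2 * Qf (Real.exp (-w)) := by
    intro w
    simp only [hR]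
    unfold rr
    rw [mul_assoc, ← Real.exp_add, show -w / 2 + w / 2 = 0 by ring, Real.exp_zero, mul_one]
  have hT0 : 0 ≤ ∑' k : ℕ, 1 / (k : ℝ) ^ 2 := tsum_nonneg (fun k => by positivity)
  have hR2 : ∀ a b : ℝ, 0 ≤ a → 0 ≤ b → |R a - R b| ≤ (2 * (2 * Real.pi * ∑' k : ℕ, 1 / (k : ℝ) ^ 2)) *
      |Real.exp (-a) - Real.exp (-b)| := by
    intro a b _ _
    rw [hRe, hRe, show 2 - 2 * Qf (Real.exp (-a)) - (2 - 2 * Qf (Real.exp (-b))) =
      -(2 * (Qf (Real.exp (-a)) - Qf (Real.exp (-b)))) by ring, abs_neg, abs_mul, abs_of_pos (by norm_num : (0:ℝ) < 2)]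
    have := Qf_lip (Real.exp_pos (-a)).le (Real.exp_pos (-b)).le
    nlinarith
  have htv := tv99 (by positivity) hR2 θ hu
  refine ⟨(R u : ℂ) * cexp (-(I * θ * u)) - R 0 + I * θ * ∫ w in (0:ℝ)..u, (R w : ℂ) * cexp (-(I * θ * w)), htv, ?_⟩
  have hexp : ∀ w : ℝ, (rr w : ℂ) * cexp (-(cc θ * w)) = (R w : ℂ) * cexp (-(I * θ * w)) := by
    intro w
    simp only [hR, cc]
    push_cast
    rw [mul_assoc, ← Complex.exp_add]
    congr 2
    ring
  have h2 : ∫ w in (0:ℝ)..u, cF rr w * cexp (-(cc θ * w)) = ∫ w in (0:ℝ)..u, (R w : ℂ) * cexp (-(I * θ * w)) := by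
    apply intervalIntegral.integral_congr
    intro w _
    exact hexp w
  have h4 : R 0 = rr 0 := by simp [hR]
  have h5 : cexp (cc θ * u) * cexp (-(cc θ * u)) = 1 := by rw [← Complex.exp_add, add_neg_cancel, Complex.exp_zero]
  unfold PJ
  rw [Jv_eq, h2, h4]
  have h6 := hexp u
  unfold cF
  linear_combination (cexp (cc θ * u)) * h6 - (rr u : ℂ) * h5

/-- the twisted function in terms of the rotated sums -/
theorem Ft_eq (θ : ℝ) : ∃ k : ℂ, ∀ u : ℝ, 0 ≤ u → ∃ E : ℂ, ‖E‖ ≤ CR ∧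
    Ft ms θ u = ((Real.exp (-(u / 2)) : ℝ) : ℂ) * mt muc θ (Real.exp u) + cexp (cc θ * u) * (k + E) := by
  refine ⟨rr 0 + kp ms θ, fun u hu => ?_⟩
  obtain ⟨E, hE, h⟩ := rr_part θ hu
  refine ⟨E, hE, ?_⟩
  unfold Ft
  rw [ms_split, mm_part θ hu, h]
  ring

theorem mt_one (θ : ℝ) {u : ℝ} (hu : 0 ≤ u) (hu2 : u < Real.log 2) : mt muc θ (Real.exp u) = cexp (I * θ * u) := by
  have h1 : ⌊Real.exp u⌋₊ = 1 := by
    rw [Nat.floor_eq_iff (Real.exp_pos u).le]
    constructor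
    · simpa using Real.one_le_exp hu
    · have := Real.exp_lt_exp.mpr hu2
      rw [Real.exp_log (by norm_num)] at this
      norm_num
      exact this
  unfold Pool.Agent.IT.mt
  rw [h1, Finset.Icc_self, Finset.sum_singleton, Real.log_exp]
  unfold muc
  simp only [ArithmeticFunction.moebius_apply_one, Int.cast_one, one_mul, Nat.cast_one, Real.log_one, sub_zero]
  congr 1
  push_cast
  ring

/-- a point `u ∈ [0, 2π/|θ|]` at which a given complex number is turned to the positive real axis -/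
theorem turn (θ : ℝ) (hθ : θ ≠ 0) (z : ℂ) : ∃ u : ℝ, 0 ≤ u ∧ u ≤ 2 * Real.pi / |θ| ∧ cexp (I * θ * u) * z = (‖z‖ : ℂ) := by
  have hpi := Real.pi_pos
  have h2 : 0 < 2 * Real.pi := by positivity
  have ht0 : 0 < |θ| := abs_pos.mpr hθ
  obtain ⟨s, hs1, hst⟩ : ∃ s : ℝ, (s = 1 ∨ s = -1) ∧ θ = s * |θ| := by
    rcases le_or_gt 0 θ with h | h
    · exact ⟨1, Or.inl rfl, by rw [abs_of_nonneg h, one_mul]⟩
    · exact ⟨-1, Or.inr rfl, by rw [abs_of_neg h]; ring⟩
  obtain ⟨r, hr0, hr1, k, hk⟩ : ∃ r : ℝ, 0 ≤ r ∧ r < 2 * Real.pi ∧ ∃ k : ℤ, z.arg + s * r = k * (2 * Real.pi) := by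
    refine ⟨2 * Real.pi * Int.fract (-(s * z.arg) / (2 * Real.pi)), by positivity, ?_, ?_⟩
    · have := Int.fract_lt_one (-(s * z.arg) / (2 * Real.pi))
      nlinarith
    · rcases hs1 with rfl | rfl
      · refine ⟨-⌊-(1 * z.arg) / (2 * Real.pi)⌋, ?_⟩
        rw [Int.fract]
        push_cast
        field_simp
        ring
      · refine ⟨⌊-(-1 * z.arg) / (2 * Real.pi)⌋, ?_⟩
        rw [Int.fract]
        field_simp
        ring
  refine ⟨r / |θ|, by positivity, by gcongr, ?_⟩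
  nth_rw 1 [← Complex.norm_mul_exp_arg_mul_I z]
  rw [mul_left_comm, ← Complex.exp_add]
  have e1 : I * (θ : ℂ) * ((r / |θ| : ℝ) : ℂ) + (z.arg : ℂ) * I = (k : ℂ) * (2 * Real.pi * I) := by
    have h1 : ((z.arg + s * r : ℝ) : ℂ) = ((k * (2 * Real.pi) : ℝ) : ℂ) := by rw [hk]
    have h3 : θ * (r / |θ|) = s * r := by
      nth_rw 1 [hst]
      field_simp
    have h4 : (θ : ℂ) * ((r / |θ| : ℝ) : ℂ) = ((s * r : ℝ) : ℂ) := by rw [← h3]; push_cast; ring
    push_cast at h1 h4 ⊢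
    linear_combination I * h1 + I * h4
  rw [e1, Complex.exp_int_mul_two_pi_mul_I, mul_one]

theorem exp_lt : Real.exp (2 * Real.pi / 10) ≤ 2 := by
  have h1 : 2 * Real.pi / 10 ≤ Real.log 2 := by
    have := Real.log_two_gt_d9
    have := Real.pi_lt_d2
    linarith
  calc Real.exp (2 * Real.pi / 10) ≤ Real.exp (Real.log 2) := Real.exp_le_exp.mpr h1
    _ = 2 := Real.exp_log (by norm_num)

/-- one-sided recurrence of the rotated sums of the Möbius function in every direction -/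
theorem dgAt_mu {θ : ℝ} (hθ : 10 ≤ |θ|) : DgAt muc (2 * CR + 1) θ := by
  intro φ B x0 hB hx x hx1
  have hCR := CR_nonneg
  have hθ0 : θ ≠ 0 := by
    intro h
    rw [h, abs_zero] at hθ
    norm_num at hθ
  obtain ⟨k, hk⟩ := Ft_eq θ
  have hne : Pool.Agent.Helper71.MA.Ne cw 1 := fun w hw _ => cw_ne hw
  have hph : ‖cexp (I * φ)‖ = 1 := norm_ph φ
  -- the size of the error term
  have herr : ∀ (u : ℝ) (E : ℂ), ‖E‖ ≤ CR → ‖cexp (I * φ) * (cexp (cc θ * u) * (k + E))‖ ≤ Real.exp (-(1 / 2) * u) * (‖k‖ + CR) := by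
    intro u E hE
    rw [norm_mul, hph, one_mul, norm_mul, norm_cc]
    apply mul_le_mul_of_nonneg_left _ (Real.exp_pos _).le
    exact (norm_add_le _ _).trans (by linarith)
  have hsq : ∀ u : ℝ, Real.sqrt (Real.exp u) = Real.exp (u / 2) := by
    intro u
    rw [Real.sqrt_eq_iff_mul_self_eq (Real.exp_pos _).le (Real.exp_pos _).le, ← Real.exp_add]
    congr 1; ring
  have hre : ∀ (u : ℝ), (cexp (I * φ) * (((Real.exp (-(u / 2)) : ℝ) : ℂ) * mt muc θ (Real.exp u))).re =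
      Real.exp (-(u / 2)) * (cexp (I * φ) * mt muc θ (Real.exp u)).re := by
    intro u
    rw [mul_left_comm, Complex.re_ofReal_mul]
  have hev : ∀ η : ℝ, 0 < η → ∀ᶠ u : ℝ in atTop, (cexp (I * φ) * Ft ms θ u).re ≤ B + η := by
    intro η hη
    have e2 : Tendsto (fun u : ℝ => Real.exp (-(1 / 2) * u) * (‖k‖ + CR)) atTop (𝓝 (0 * (‖k‖ + CR))) := by
      apply Tendsto.mul_const
      apply Real.tendsto_exp_atBot.comp
      exact Filter.Tendsto.const_mul_atTop_of_neg (by norm_num) tendsto_id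
    rw [zero_mul] at e2
    filter_upwards [e2.eventually (gt_mem_nhds hη), eventually_ge_atTop 0,
      Real.tendsto_exp_atTop.eventually (eventually_ge_atTop x0)] with u h1 h2 h3
    obtain ⟨E, hE, hF⟩ := hk u h2
    rw [hF, mul_add, Complex.add_re, hre]
    have h4 := (Complex.re_le_norm _).trans (herr u E hE)
    have h5 := hx _ h3
    rw [hsq] at h5
    have h6 : Real.exp (-(u / 2)) * (cexp (I * φ) * mt muc θ (Real.exp u)).re ≤ B := by
      calc _ ≤ Real.exp (-(u / 2)) * (B * Real.exp (u / 2)) := mul_le_mul_of_nonneg_left h5 (Real.exp_pos _).le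
        _ = B := by rw [mul_left_comm, ← Real.exp_add]; simp
    linarith
  have hall := (tw_le sys_ms hne hθ0 hev).1
  -- the constant
  obtain ⟨u0, hu0, hu1, hz⟩ := turn θ hθ0 (cexp (I * φ) * (1 + k))
  have hpi := Real.pi_pos
  have hu2 : u0 ≤ 2 * Real.pi / 10 := hu1.trans (by gcongr)
  have hu3 : u0 < Real.log 2 := by
    have := Real.log_two_gt_d9
    have := Real.pi_lt_d2
    linarith
  have hk1 : ‖1 + k‖ ≤ 2 * B + CR := by
    obtain ⟨E, hE, hF⟩ := hk u0 hu0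
    have h1 := hall u0
    have hcc : ((Real.exp (-(u0 / 2)) : ℝ) : ℂ) * cexp (I * θ * u0) = cexp (cc θ * u0) := by
      rw [Complex.ofReal_exp, ← Complex.exp_add]
      congr 1
      unfold cc
      push_cast; ring
    have h2 : cexp (I * φ) * Ft ms θ u0 = ((Real.exp (-(u0 / 2)) : ℝ) : ℂ) * ((‖cexp (I * φ) * (1 + k)‖ : ℂ) +
        cexp (I * φ) * (cexp (I * θ * u0) * E)) := by
      rw [hF, mt_one θ hu0 hu3, ← hz, ← hcc]
      ring
    rw [h2, Complex.re_ofReal_mul, Complex.add_re, Complex.ofReal_re, norm_mul, hph, one_mul] at h1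
    have h3 : -CR ≤ (cexp (I * φ) * (cexp (I * θ * u0) * E)).re := by
      have h4 := Complex.abs_re_le_norm (cexp (I * φ) * (cexp (I * θ * u0) * E))
      have h5 : ‖cexp (I * θ * u0)‖ = 1 := by
        rw [show I * (θ : ℂ) * u0 = ((θ * u0 : ℝ) : ℂ) * I by push_cast; ring, Complex.norm_exp_ofReal_mul_I]
      rw [norm_mul, hph, one_mul, norm_mul, h5, one_mul] at h4
      have := neg_abs_le (cexp (I * φ) * (cexp (I * θ * u0) * E)).re
      linarith
    have h6 : Real.exp (-(u0 / 2)) * (‖1 + k‖ - CR) ≤ B := by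
      refine le_trans ?_ h1
      exact mul_le_mul_of_nonneg_left (by linarith) (Real.exp_pos _).le
    have h7 : Real.exp (u0 / 2) ≤ 2 := by
      refine le_trans (Real.exp_le_exp.mpr ?_) exp_lt
      linarith
    have h8 : Real.exp (u0 / 2) * Real.exp (-(u0 / 2)) = 1 := by rw [← Real.exp_add]; simp
    have h9 : ‖1 + k‖ - CR ≤ Real.exp (u0 / 2) * B := by
      calc ‖1 + k‖ - CR = Real.exp (u0 / 2) * (Real.exp (-(u0 / 2)) * (‖1 + k‖ - CR)) := by
            rw [← mul_assoc, h8, one_mul]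
        _ ≤ Real.exp (u0 / 2) * B := mul_le_mul_of_nonneg_left h6 (Real.exp_pos _).le
    have h10 : Real.exp (u0 / 2) * B ≤ 2 * B := mul_le_mul_of_nonneg_right h7 hB
    linarith
  have hk2 : ‖k‖ ≤ 2 * B + CR + 1 := by
    have h1 : k = (1 + k) - 1 := by ring
    rw [h1]
    refine (norm_sub_le _ _).trans ?_
    rw [norm_one]
    linarith
  -- the bound at `x`
  obtain ⟨u, hu, rfl⟩ : ∃ u : ℝ, 0 ≤ u ∧ Real.exp u = x := ⟨Real.log x, Real.log_nonneg hx1, Real.exp_log (by linarith)⟩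
  obtain ⟨E, hE, hF⟩ := hk u hu
  have h1 := hall u
  rw [hF, mul_add, Complex.add_re, hre] at h1
  have h2 := (Complex.abs_re_le_norm _).trans (herr u E hE)
  have h3 := neg_abs_le (cexp (I * φ) * (cexp (cc θ * u) * (k + E))).re
  have h4 : Real.exp (-(1 / 2) * u) * (‖k‖ + CR) ≤ 2 * B + 2 * CR + 1 := by
    have h5 : Real.exp (-(1 / 2) * u) ≤ 1 := Real.exp_le_one_iff.mpr (by linarith)
    calc Real.exp (-(1 / 2) * u) * (‖k‖ + CR) ≤ 1 * (‖k‖ + CR) :=
          mul_le_mul_of_nonneg_right h5 (by positivity)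
      _ ≤ _ := by linarith
  have h5 : Real.exp (-(u / 2)) * (cexp (I * φ) * mt muc θ (Real.exp u)).re ≤ 3 * B + (2 * CR + 1) := by linarith
  rw [hsq]
  have h8 : Real.exp (u / 2) * Real.exp (-(u / 2)) = 1 := by rw [← Real.exp_add]; simp
  calc (cexp (I * φ) * mt muc θ (Real.exp u)).re
      = Real.exp (u / 2) * (Real.exp (-(u / 2)) * (cexp (I * φ) * mt muc θ (Real.exp u)).re) := by
        rw [← mul_assoc, h8, one_mul]
    _ ≤ Real.exp (u / 2) * (3 * B + (2 * CR + 1)) := mul_le_mul_of_nonneg_left h5 (Real.exp_pos _).le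
    _ = _ := by ring

theorem stmtDg_mu : StmtDg muc := by
  refine ⟨2 * CR + 1, fun η hη => ⟨20 / η, fun H hH U => ?_⟩⟩
  have h1 : {t : ℝ | U ≤ t ∧ t ≤ U + H ∧ ¬ DgAt muc (2 * CR + 1) t} ⊆ Ioo (-10) 10 := by
    intro t ht
    by_contra hc
    apply ht.2.2
    apply dgAt_mu
    rw [mem_Ioo, not_and_or, not_lt, not_lt] at hc
    rw [le_abs]
    rcases hc with h | h
    · right; linarith
    · left; exact h
  refine (measure_mono h1).trans ?_
  rw [Real.volume_Ioo]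
  apply ENNReal.ofReal_le_ofReal
  rw [div_le_iff₀ hη] at hH
  linarith

end Pool.Agent.Helper52.Tw
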