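import Pool.Agent.Helper52.IT.Dir
import Pool.Agent.Helper52.IT.DgW

/-!
# Project IT (MP_a499ba_nt): the rotated sums of the Möbius function, one-sided recurrence in every direction, with windows
-/

set_option autoImplicit false

open Complex Filter Topology MeasureTheory Set
open Pool.Agent.Helper57.Zeta
open Pool.Agent.Helper71.MR (mm rr ms cw cw_ne A0 mm_meas rr_meas mm_bd' rr_bd' Qf Qf_lip C54 C54_nonneg)
open Pool.Agent.Helper71.MA (Sys Ne Fail Big big_of_fail le_of_big big_re)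
open Pool.Agent.Helper71.LA (sys_ms)
open Pool.Agent.Helper99.IT (CR CR_nonneg)
open Pool.Agent.IT (Sw muc mt mt_eq DgW StmtDgW)

namespace Pool.Agent.Helper52.Tw

variable {F : ℝ → ℝ} {A : ℝ} {c : ℂ → ℂ}

/-- the recurrence for twisted systems, from the failure on windows -/
theorem tw_le_w (hS : Sys F A c) (hne : Pool.Agent.Helper71.MA.Ne c 1) {θ : ℝ} (hθ : θ ≠ 0) {φ B : ℝ}
    (h : ∀ η : ℝ, 0 < η → Fail (Fr F θ φ) 1 (B + η) 1) :
    (∀ u : ℝ, (cexp (I * φ) * Ft F θ u).re ≤ B) ∧ ∀ w, xi (1 / 2 + w) = 0 → w.re = 0 := by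
  have hS' := Fr_sys hS θ φ
  have hne' := cr_ne hS hne hθ φ
  constructor
  · intro u
    apply le_of_forall_pos_le_add
    intro η hη
    obtain ⟨C4, h4, hB⟩ := big_of_fail hS' (by simp) (Or.inl rfl) (h η hη)
    have := le_of_big hS' (Or.inl rfl) hne' h4 hB u
    rwa [one_mul] at this
  · intro w hw
    obtain ⟨C4, h4, hB⟩ := big_of_fail hS' (by simp) (Or.inl rfl) (h 1 one_pos)
    exact big_re hS' (Or.inl rfl) hne' hB hw

/-- one-sided recurrence of the rotated sums of the Möbius function in every direction, with windows -/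
theorem dgW_mu {θ : ℝ} (hθ : 10 ≤ |θ|) : DgW muc (2 * CR + 1) θ := by
  intro φ B hB hx x hx1
  have hCR := CR_nonneg
  have hθ0 : θ ≠ 0 := by
    intro h
    rw [h, abs_zero] at hθ
    norm_num at hθ
  obtain ⟨k, hk⟩ := Ft_eq θ
  have hne : Pool.Agent.Helper71.MA.Ne cw 1 := fun w hw _ => cw_ne hw
  have hph : ‖cexp (I * φ)‖ = 1 := norm_ph φ
  -- the size of the error term
  have herr : ∀ (u : ℝ) (E : ℂ), ‖E‖ ≤ CR → ‖cexp (I * φ) * (cexp (cc θ * u) * (k + E))‖ ≤ Real.exp (-(1 / 2) * u) * (‖k‖ + CR) := by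
    intro u E hE
    rw [norm_mul, hph, one_mul, norm_mul, norm_cc]
    apply mul_le_mul_of_nonneg_left _ (Real.exp_pos _).le
    exact (norm_add_le _ _).trans (by linarith)
  have hsq : ∀ u : ℝ, Real.sqrt (Real.exp u) = Real.exp (u / 2) := by
    intro u
    rw [Real.sqrt_eq_iff_mul_self_eq (Real.exp_pos _).le (Real.exp_pos _).le, ← Real.exp_add]
    congr 1; ring
  have hre : ∀ (u : ℝ), (cexp (I * φ) * (((Real.exp (-(u / 2)) : ℝ) : ℂ) * mt muc θ (Real.exp u))).re =
      Real.exp (-(u / 2)) * (cexp (I * φ) * mt muc θ (Real.exp u)).re := by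
    intro u
    rw [mul_left_comm, Complex.re_ofReal_mul]
  have hev : ∀ η : ℝ, 0 < η → Fail (Fr ms θ φ) 1 (B + η) 1 := by
    intro η hη C
    have e2 : Tendsto (fun u : ℝ => Real.exp (-(1 / 2) * u) * (‖k‖ + CR)) atTop (𝓝 (0 * (‖k‖ + CR))) := by
      apply Tendsto.mul_const
      apply Real.tendsto_exp_atBot.comp
      exact Filter.Tendsto.const_mul_atTop_of_neg (by norm_num) tendsto_id
    rw [zero_mul] at e2
    obtain ⟨T1, hT1⟩ := Filter.eventually_atTop.1 (e2.eventually (gt_mem_nhds hη))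
    obtain ⟨X, hX, hw⟩ := hx (Real.exp (max (max C T1) 1))
    have hX0 : 0 < X := (Real.exp_pos _).trans_le hX
    have hT : max (max C T1) 1 ≤ Real.log X := (Real.le_log_iff_exp_le hX0).mpr hX
    have hTC : C ≤ Real.log X := ((le_max_left _ _).trans (le_max_left _ _)).trans hT
    have hTT : T1 ≤ Real.log X := ((le_max_right _ _).trans (le_max_left _ _)).trans hT
    have hT0 : 1 ≤ Real.log X := (le_max_right _ _).trans hT
    refine ⟨Real.log X, hTC, fun u hu => ?_⟩
    have h2 : 0 ≤ u := by linarith [hu.1]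
    have h1 := hT1 u (hTT.trans hu.1)
    obtain ⟨E, hE, hF⟩ := hk u h2
    rw [one_mul, one_mul]
    unfold Fr
    rw [hF, mul_add, Complex.add_re, hre]
    have h4 := (Complex.re_le_norm _).trans (herr u E hE)
    have hxu1 : X ≤ Real.exp u := by rw [← Real.log_le_iff_le_exp hX0]; exact hu.1
    have hxu2 : Real.exp u ≤ Real.exp (max (max C T1) 1) * X * Real.log X := by
      have e3 : Real.exp (max (max C T1) 1) * X * Real.log X =
          Real.exp (max (max C T1) 1 + Real.log X + Real.log (Real.log X)) := by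
        rw [Real.exp_add, Real.exp_add, Real.exp_log hX0, Real.exp_log (by linarith)]
      rw [e3]
      apply Real.exp_le_exp.mpr
      have := hu.2
      have : C ≤ max (max C T1) 1 := (le_max_left _ _).trans (le_max_left _ _)
      linarith
    have h5 := hw _ hxu1 hxu2
    rw [hsq] at h5
    have h6 : Real.exp (-(u / 2)) * (cexp (I * φ) * mt muc θ (Real.exp u)).re ≤ B := by
      calc _ ≤ Real.exp (-(u / 2)) * (B * Real.exp (u / 2)) := mul_le_mul_of_nonneg_left h5 (Real.exp_pos _).le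
        _ = B := by rw [mul_left_comm, ← Real.exp_add]; simp
    linarith
  have hall := (tw_le_w sys_ms hne hθ0 hev).1
  -- the constant
  obtain ⟨u0, hu0, hu1, hz⟩ := turn θ hθ0 (cexp (I * φ) * (1 + k))
  have hpi := Real.pi_pos
  have hu2 : u0 ≤ 2 * Real.pi / 10 := hu1.trans (by gcongr)
  have hu3 : u0 < Real.log 2 := by
    have := Real.log_two_gt_d9
    have := Real.pi_lt_d2
    linarith
  have hk1 : ‖1 + k‖ ≤ 2 * B + CR := by
    obtain ⟨E, hE, hF⟩ := hk u0 hu0
    have h1 := hall u0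
    have hcc : ((Real.exp (-(u0 / 2)) : ℝ) : ℂ) * cexp (I * θ * u0) = cexp (cc θ * u0) := by
      rw [Complex.ofReal_exp, ← Complex.exp_add]
      congr 1
      unfold cc
      push_cast; ring
    have h2 : cexp (I * φ) * Ft ms θ u0 = ((Real.exp (-(u0 / 2)) : ℝ) : ℂ) * ((‖cexp (I * φ) * (1 + k)‖ : ℂ) +
        cexp (I * φ) * (cexp (I * θ * u0) * E)) := by
      rw [hF, mt_one θ hu0 hu3, ← hz, ← hcc]
      ring
    rw [h2, Complex.re_ofReal_mul, Complex.add_re, Complex.ofReal_re, norm_mul, hph, one_mul] at h1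
    have h3 : -CR ≤ (cexp (I * φ) * (cexp (I * θ * u0) * E)).re := by
      have h4 := Complex.abs_re_le_norm (cexp (I * φ) * (cexp (I * θ * u0) * E))
      have h5 : ‖cexp (I * θ * u0)‖ = 1 := by
        rw [show I * (θ : ℂ) * u0 = ((θ * u0 : ℝ) : ℂ) * I by push_cast; ring, Complex.norm_exp_ofReal_mul_I]
      rw [norm_mul, hph, one_mul, norm_mul, h5, one_mul] at h4
      have := neg_abs_le (cexp (I * φ) * (cexp (I * θ * u0) * E)).re
      linarith
    have h6 : Real.exp (-(u0 / 2)) * (‖1 + k‖ - CR) ≤ B := by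
      refine le_trans ?_ h1
      exact mul_le_mul_of_nonneg_left (by linarith) (Real.exp_pos _).le
    have h7 : Real.exp (u0 / 2) ≤ 2 := by
      refine le_trans (Real.exp_le_exp.mpr ?_) exp_lt
      linarith
    have h8 : Real.exp (u0 / 2) * Real.exp (-(u0 / 2)) = 1 := by rw [← Real.exp_add]; simp
    have h9 : ‖1 + k‖ - CR ≤ Real.exp (u0 / 2) * B := by
      calc ‖1 + k‖ - CR = Real.exp (u0 / 2) * (Real.exp (-(u0 / 2)) * (‖1 + k‖ - CR)) := by
            rw [← mul_assoc, h8, one_mul]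
        _ ≤ Real.exp (u0 / 2) * B := mul_le_mul_of_nonneg_left h6 (Real.exp_pos _).le
    have h10 : Real.exp (u0 / 2) * B ≤ 2 * B := mul_le_mul_of_nonneg_right h7 hB
    linarith
  have hk2 : ‖k‖ ≤ 2 * B + CR + 1 := by
    have h1 : k = (1 + k) - 1 := by ring
    rw [h1]
    refine (norm_sub_le _ _).trans ?_
    rw [norm_one]
    linarith
  -- the bound at `x`
  obtain ⟨u, hu, rfl⟩ : ∃ u : ℝ, 0 ≤ u ∧ Real.exp u = x := ⟨Real.log x, Real.log_nonneg hx1, Real.exp_log (by linarith)⟩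
  obtain ⟨E, hE, hF⟩ := hk u hu
  have h1 := hall u
  rw [hF, mul_add, Complex.add_re, hre] at h1
  have h2 := (Complex.abs_re_le_norm _).trans (herr u E hE)
  have h3 := neg_abs_le (cexp (I * φ) * (cexp (cc θ * u) * (k + E))).re
  have h4 : Real.exp (-(1 / 2) * u) * (‖k‖ + CR) ≤ 2 * B + 2 * CR + 1 := by
    have h5 : Real.exp (-(1 / 2) * u) ≤ 1 := Real.exp_le_one_iff.mpr (by linarith)
    calc Real.exp (-(1 / 2) * u) * (‖k‖ + CR) ≤ 1 * (‖k‖ + CR) :=
          mul_le_mul_of_nonneg_right h5 (by positivity)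
      _ ≤ _ := by linarith
  have h5 : Real.exp (-(u / 2)) * (cexp (I * φ) * mt muc θ (Real.exp u)).re ≤ 3 * B + (2 * CR + 1) := by linarith
  rw [hsq]
  have h8 : Real.exp (u / 2) * Real.exp (-(u / 2)) = 1 := by rw [← Real.exp_add]; simp
  calc (cexp (I * φ) * mt muc θ (Real.exp u)).re
      = Real.exp (u / 2) * (Real.exp (-(u / 2)) * (cexp (I * φ) * mt muc θ (Real.exp u)).re) := by
        rw [← mul_assoc, h8, one_mul]
    _ ≤ Real.exp (u / 2) * (3 * B + (2 * CR + 1)) := mul_le_mul_of_nonneg_left h5 (Real.exp_pos _).le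
    _ = _ := by ring

theorem stmtDgW_mu : StmtDgW muc := by
  refine ⟨2 * CR + 1, fun η hη => ⟨20 / η, fun H hH U => ?_⟩⟩
  have h1 : {t : ℝ | U ≤ t ∧ t ≤ U + H ∧ ¬ DgW muc (2 * CR + 1) t} ⊆ Ioo (-10) 10 := by
    intro t ht
    by_contra hc
    apply ht.2.2
    apply dgW_mu
    rw [mem_Ioo, not_and_or, not_lt, not_lt] at hc
    rw [le_abs]
    rcases hc with h | h
    · right; linarith
    · left; exact h
  refine (measure_mono h1).trans ?_
  rw [Real.volume_Ioo]
  apply ENNReal.ofReal_le_ofReal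
  rw [div_le_iff₀ hη] at hH
  linarith

end Pool.Agent.Helper52.Tw
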