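import Pool.Agent.Helper56.IT.Stmts

/-!
# Project IT (MP_a499ba_nt), block L

Partial summation: if `∑_{n ≤ x} a(n) n^{-it} = O(√x)` for one real `t`, then `∑_{n ≤ x} a(n) = O(√x)`.
-/

set_option autoImplicit false

namespace Pool.Agent.IT

open Finset

private theorem nit52 (t : ℝ) {n : ℕ} (hn : 1 ≤ n) : nit t n = Complex.exp (Complex.I * ((-(t * Real.log n) : ℝ) : ℂ)) := by
  have h0 : (n : ℂ) ≠ 0 := by exact_mod_cast (by omega : n ≠ 0)
  unfold nit
  rw [Complex.cpow_def_of_ne_zero h0, ← Complex.natCast_log]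
  congr 1
  push_cast
  ring

/-- `n^{it}` -/
private noncomputable def w52 (t : ℝ) (n : ℕ) : ℂ := Complex.exp (Complex.I * ((t * Real.log n : ℝ) : ℂ))

private theorem norm_w52 (t : ℝ) (n : ℕ) : ‖w52 t n‖ = 1 := by
  unfold w52
  rw [mul_comm, Complex.norm_exp_ofReal_mul_I]

private theorem nit_mul52 (t : ℝ) {n : ℕ} (hn : 1 ≤ n) : nit t n * w52 t n = 1 := by
  rw [nit52 t hn, w52, ← Complex.exp_add, ← mul_add, ← Complex.ofReal_add]
  simp

private theorem diff52 (t : ℝ) {n : ℕ} (hn : 1 ≤ n) : ‖w52 t (n + 1) - w52 t n‖ ≤ |t| / n := by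
  have hn0 : (0 : ℝ) < n := by exact_mod_cast hn
  have h1 : w52 t (n + 1) - w52 t n =
      w52 t n * (Complex.exp (Complex.I * ((t * (Real.log (n + 1) - Real.log n) : ℝ) : ℂ)) - 1) := by
    unfold w52
    rw [mul_sub, mul_one, ← Complex.exp_add, ← mul_add, ← Complex.ofReal_add]
    congr 3
    push_cast
    ring_nf
  have h2 : Real.log (n + 1) - Real.log n ≤ 1 / n := by
    rw [← Real.log_div (by positivity) hn0.ne']
    have h3 := Real.log_le_sub_one_of_pos (show (0 : ℝ) < (n + 1) / n by positivity)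
    have h4 : ((n : ℝ) + 1) / n - 1 = 1 / n := by field_simp; ring
    linarith
  have h5 : 0 ≤ Real.log (n + 1) - Real.log n := by
    have := Real.log_le_log hn0 (by linarith : (n : ℝ) ≤ n + 1)
    linarith
  rw [h1, norm_mul, norm_w52, one_mul]
  refine Real.norm_exp_I_mul_ofReal_sub_one_le.trans ?_
  rw [Real.norm_eq_abs, abs_mul, abs_of_nonneg h5, div_eq_mul_one_div]
  exact mul_le_mul_of_nonneg_left h2 (abs_nonneg _)

private theorem sqrt_sum52 (N : ℕ) : ∑ n ∈ Finset.range N, 1 / Real.sqrt ((n : ℝ) + 1) ≤ 2 * Real.sqrt N := by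
  induction N with
  | zero => simp
  | succ N ih =>
    rw [Finset.sum_range_succ]
    have h1 : 0 ≤ Real.sqrt N := Real.sqrt_nonneg _
    have h2 : 0 < Real.sqrt ((N : ℝ) + 1) := Real.sqrt_pos.2 (by positivity)
    have h3 : Real.sqrt N ^ 2 = N := Real.sq_sqrt (by positivity)
    have h4 : Real.sqrt ((N : ℝ) + 1) ^ 2 = N + 1 := Real.sq_sqrt (by positivity)
    have h5 : 1 / Real.sqrt ((N : ℝ) + 1) ≤ 2 * Real.sqrt ((N : ℝ) + 1) - 2 * Real.sqrt N := by
      rw [div_le_iff₀ h2]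
      nlinarith [sq_nonneg (Real.sqrt ((N : ℝ) + 1) - Real.sqrt N)]
    push_cast
    linarith

private theorem abel52 (a : ℕ → ℂ) (t : ℝ) (N : ℕ) :
    ∑ n ∈ Finset.Icc 1 N, a n = (∑ n ∈ Finset.Icc 1 N, a n * nit t n) * w52 t N -
      ∑ n ∈ Finset.range (N - 1), (∑ m ∈ Finset.Icc 1 (n + 1), a m * nit t m) * (w52 t (n + 1 + 1) - w52 t (n + 1)) := by
  induction N with
  | zero => simp
  | succ N ih =>
    rw [Finset.sum_Icc_succ_top (by omega), ih, Finset.sum_Icc_succ_top (by omega : 1 ≤ N + 1)]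
    have h1 : a (N + 1) * nit t (N + 1) * w52 t (N + 1) = a (N + 1) := by
      rw [mul_assoc, nit_mul52 t (by omega), mul_one]
    rcases Nat.eq_zero_or_pos N with rfl | hN
    · simp only [Finset.Icc_eq_empty_of_lt Nat.zero_lt_one, Finset.sum_empty, zero_mul, zero_add, Nat.sub_self,
        Finset.range_zero, Finset.sum_empty, sub_zero, Nat.zero_sub] at h1 ⊢
      exact h1.symm
    · have h2 : N + 1 - 1 = (N - 1) + 1 := by omega
      rw [h2, Finset.sum_range_succ]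
      have h3 : N - 1 + 1 = N := by omega
      rw [h3]
      linear_combination -h1

theorem stmtL (a : ℕ → ℂ) : StmtL a := by
  intro t ⟨C, x0, hC⟩
  set A : ℕ → ℂ := fun N => ∑ n ∈ Finset.Icc 1 N, a n * nit t n with hA
  set M0 : ℝ := ∑ m ∈ Finset.Icc 1 ⌈x0⌉₊, ‖a m * nit t m‖ with hM0
  have hM0' : 0 ≤ M0 := Finset.sum_nonneg fun _ _ => norm_nonneg _
  set C' : ℝ := max C 0 + M0 with hC'
  have hC'0 : 0 ≤ C' := add_nonneg (le_max_right _ _) hM0'
  have hb : ∀ n : ℕ, 1 ≤ n → ‖A n‖ ≤ C' * Real.sqrt n := by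
    intro n hn
    have hn1 : (1 : ℝ) ≤ Real.sqrt n := Real.one_le_sqrt.2 (by exact_mod_cast hn)
    rcases le_or_gt x0 (n : ℝ) with h | h
    · have h1 := hC n h
      unfold Sw at h1
      rw [Nat.floor_natCast] at h1
      refine h1.trans (mul_le_mul_of_nonneg_right ?_ (by positivity))
      linarith [le_max_left C 0]
    · have h1 : n ≤ ⌈x0⌉₊ := by
        have : (n : ℝ) ≤ ⌈x0⌉₊ := h.le.trans (Nat.le_ceil _)
        exact_mod_cast this
      have h2 : ‖A n‖ ≤ M0 := (norm_sum_le _ _).trans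
        (Finset.sum_le_sum_of_subset_of_nonneg (Finset.Icc_subset_Icc le_rfl h1) fun _ _ _ => norm_nonneg _)
      calc ‖A n‖ ≤ C' * 1 := by linarith [le_max_right C 0]
        _ ≤ C' * Real.sqrt n := mul_le_mul_of_nonneg_left hn1 hC'0
  refine ⟨C' * (1 + 2 * |t|), fun x hx => ?_⟩
  set N := ⌊x⌋₊ with hN
  have hN1 : 1 ≤ N := Nat.le_floor (by simpa using hx)
  have h0 : Sw a 0 x = ∑ n ∈ Finset.Icc 1 N, a n := by
    unfold Sw
    refine Finset.sum_congr rfl fun n hn => ?_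
    rw [nit52 0 (Finset.mem_Icc.1 hn).1]
    simp
  have hsq : Real.sqrt N ≤ Real.sqrt x := Real.sqrt_le_sqrt (Nat.floor_le (by linarith))
  rw [h0, abel52 a t N]
  have h1 : ‖(∑ n ∈ Finset.Icc 1 N, a n * nit t n) * w52 t N‖ ≤ C' * Real.sqrt N := by
    rw [norm_mul, norm_w52, mul_one]
    exact hb N hN1
  have h2 : ‖∑ n ∈ Finset.range (N - 1), (∑ m ∈ Finset.Icc 1 (n + 1), a m * nit t m) *
      (w52 t (n + 1 + 1) - w52 t (n + 1))‖ ≤ C' * |t| * (2 * Real.sqrt N) := by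
    refine (norm_sum_le _ _).trans ?_
    have h3 : ∀ n ∈ Finset.range (N - 1), ‖(∑ m ∈ Finset.Icc 1 (n + 1), a m * nit t m) *
        (w52 t (n + 1 + 1) - w52 t (n + 1))‖ ≤ C' * |t| * (1 / Real.sqrt ((n : ℝ) + 1)) := by
      intro n _
      rw [norm_mul]
      have h4 := hb (n + 1) (by omega)
      have h5 := diff52 t (show 1 ≤ n + 1 by omega)
      have hp : (0 : ℝ) < (n : ℝ) + 1 := by positivity
      have h6 : Real.sqrt ((n : ℝ) + 1) * (|t| / ((n : ℝ) + 1)) = |t| * (1 / Real.sqrt ((n : ℝ) + 1)) := by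
        have h7 : Real.sqrt ((n : ℝ) + 1) ^ 2 = n + 1 := Real.sq_sqrt hp.le
        have h8 : 0 < Real.sqrt ((n : ℝ) + 1) := Real.sqrt_pos.2 hp
        rw [mul_div_assoc', div_eq_iff hp.ne']
        calc Real.sqrt ((n : ℝ) + 1) * |t| = |t| * (1 / Real.sqrt ((n : ℝ) + 1)) * Real.sqrt ((n : ℝ) + 1) ^ 2 := by
              field_simp
          _ = _ := by rw [h7]
      push_cast at h4 h5
      calc _ ≤ C' * Real.sqrt ((n : ℝ) + 1) * (|t| / ((n : ℝ) + 1)) :=
            mul_le_mul h4 h5 (norm_nonneg _) (by positivity)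
        _ = C' * (Real.sqrt ((n : ℝ) + 1) * (|t| / ((n : ℝ) + 1))) := by ring
        _ = _ := by rw [h6]; ring
    refine (Finset.sum_le_sum h3).trans ?_
    rw [← Finset.mul_sum]
    refine mul_le_mul_of_nonneg_left ?_ (by positivity)
    refine (sqrt_sum52 (N - 1)).trans ?_
    have : Real.sqrt ((N - 1 : ℕ) : ℝ) ≤ Real.sqrt N := Real.sqrt_le_sqrt (by exact_mod_cast Nat.sub_le _ _)
    linarith
  calc _ ≤ C' * Real.sqrt N + C' * |t| * (2 * Real.sqrt N) := (norm_sub_le _ _).trans (add_le_add h1 h2)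
    _ = C' * (1 + 2 * |t|) * Real.sqrt N := by ring
    _ ≤ C' * (1 + 2 * |t|) * Real.sqrt x := mul_le_mul_of_nonneg_left hsq (by positivity)

theorem stmtL_mu : StmtL muc := stmtL muc

theorem stmtL_la : StmtL lac := stmtL lac

end Pool.Agent.IT
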