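import Pool.Agent.Helper71.MA.Main

/-!
# Project IT (MP_a499ba_nt), twisted systems, part A: the convolution with `δ + i θ e^{(i θ - 1/2) v}`
-/

set_option autoImplicit false

open Complex Filter Topology MeasureTheory Set
open Pool.Agent.Helper57.Zeta
open Pool.Agent.Helper71.MR (kr kr_pos kr_cont kr_bd kr_lap Aw Aw_meas dk_kr dk_Aw Dk integrable_exp_abs norm_cexp_mul zero_re
  exp_two_ge)

namespace Pool.Agent.Helper52.Tw

/-- complex functions of moderate growth -/
structure Gm (G : ℝ → ℂ) (A : ℝ) : Prop where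
  meas : Measurable G
  pos : 0 ≤ A
  bd : ∀ t, ‖G t‖ ≤ A * Real.exp (3 / 4 * |t|)

variable {G : ℝ → ℂ} {A : ℝ}

theorem kint (hG : Gm G A) {φ : ℝ → ℂ} {C : ℝ} (hφ : Dk φ C) (y : ℝ) : Integrable (fun s : ℝ => G (y + s) * φ s) := by
  have hC := hφ.nonneg
  have hA := hG.pos
  refine Integrable.mono' ((integrable_exp_abs one_pos).const_mul (A * Real.exp (3 / 4 * |y|) * C)) ?_ ?_
  · apply Measurable.aestronglyMeasurable
    have := hG.meas
    have := hφ.meas
    fun_prop
  · filter_upwards with s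
    rw [norm_mul]
    calc ‖G (y + s)‖ * ‖φ s‖ ≤ (A * Real.exp (3 / 4 * |y + s|)) * (C * Real.exp (-(2 * |s|))) :=
          mul_le_mul (hG.bd _) (hφ.exp_bd _) (norm_nonneg _) (by positivity)
      _ = A * C * Real.exp (3 / 4 * |y + s| + -(2 * |s|)) := by rw [Real.exp_add]; ring
      _ ≤ A * C * Real.exp (3 / 4 * |y| + -(1 * |s|)) := by
          apply mul_le_mul_of_nonneg_left _ (by positivity)
          apply Real.exp_le_exp.mpr
          have := abs_add_le y s
          linarith [abs_nonneg s]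
      _ = _ := by rw [Real.exp_add]; ring

/-- Fubini for a finite shift -/
theorem fub (hG : Gm G A) {φ : ℝ → ℂ} {C : ℝ} (hφ : Dk φ C) {g : ℝ → ℂ} (hg : Continuous g) {h : ℝ} (hh : 0 ≤ h) (y : ℝ) :
    ∫ s : ℝ, (∫ v in (0:ℝ)..h, G (y + s + v) * g v) * φ s = ∫ v in (0:ℝ)..h, (∫ s : ℝ, G (y + v + s) * φ s) * g v := by
  have hC := hφ.nonneg
  have hA := hG.pos
  obtain ⟨M, hM⟩ := (isCompact_Icc (a := (0:ℝ)) (b := h)).exists_bound_of_continuousOn hg.continuousOn
  have hM0 : 0 ≤ M := (norm_nonneg _).trans (hM 0 ⟨le_rfl, hh⟩)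
  have hint : Integrable (Function.uncurry fun s v : ℝ => G (y + s + v) * g v * φ s)
      (volume.prod (volume.restrict (Ioc (0:ℝ) h))) := by
    have h1 : Integrable (fun p : ℝ × ℝ => (A * Real.exp (3 / 4 * |y|) * C * Real.exp (3 / 4 * h) * M *
        Real.exp (-(1 * |p.1|))) * (1:ℝ)) (volume.prod (volume.restrict (Ioc (0:ℝ) h))) :=
      Integrable.mul_prod (f := fun s : ℝ => A * Real.exp (3 / 4 * |y|) * C * Real.exp (3 / 4 * h) * M *
        Real.exp (-(1 * |s|))) (g := fun _ : ℝ => (1:ℝ))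
        ((integrable_exp_abs one_pos).const_mul _) (integrable_const 1)
    refine Integrable.mono' h1 ?_ ?_
    · apply Measurable.aestronglyMeasurable
      simp only [Function.uncurry_def]
      have := hG.meas
      have := hφ.meas
      have := hg.measurable
      fun_prop
    · rw [← Measure.restrict_univ (μ := (volume : Measure ℝ)), Measure.prod_restrict]
      filter_upwards [self_mem_ae_restrict (MeasurableSet.univ.prod measurableSet_Ioc)] with p hp
      have hp2 : p.2 ∈ Ioc 0 h := hp.2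
      simp only [Function.uncurry_def]
      rw [norm_mul, norm_mul, mul_one]
      calc ‖G (y + p.1 + p.2)‖ * ‖g p.2‖ * ‖φ p.1‖
          ≤ (A * Real.exp (3 / 4 * |y + p.1 + p.2|)) * M * (C * Real.exp (-(2 * |p.1|))) := by
            apply mul_le_mul _ (hφ.exp_bd _) (norm_nonneg _) (by positivity)
            exact mul_le_mul (hG.bd _) (hM _ ⟨hp2.1.le, hp2.2⟩) (norm_nonneg _) (by positivity)
        _ = A * C * M * Real.exp (3 / 4 * |y + p.1 + p.2| + -(2 * |p.1|)) := by
            rw [Real.exp_add]; ring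
        _ ≤ A * C * M * Real.exp (3 / 4 * |y| + 3 / 4 * h + -(1 * |p.1|)) := by
            apply mul_le_mul_of_nonneg_left _ (by positivity)
            apply Real.exp_le_exp.mpr
            have h2 := abs_add_le (y + p.1) p.2
            have h3 := abs_add_le y p.1
            have h4 : |p.2| ≤ h := by rw [abs_of_pos hp2.1]; exact hp2.2
            linarith [abs_nonneg p.1]
        _ = _ := by rw [Real.exp_add, Real.exp_add]; ring
  calc ∫ s : ℝ, (∫ v in (0:ℝ)..h, G (y + s + v) * g v) * φ s
      = ∫ s : ℝ, ∫ v in Ioc (0:ℝ) h, G (y + s + v) * g v * φ s := by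
        apply integral_congr_ae
        filter_upwards with s
        rw [intervalIntegral.integral_of_le hh, integral_mul_const]
    _ = ∫ v in Ioc (0:ℝ) h, ∫ s : ℝ, G (y + s + v) * g v * φ s := integral_integral_swap hint
    _ = _ := by
        rw [intervalIntegral.integral_of_le hh]
        apply integral_congr_ae
        filter_upwards with v
        rw [← integral_mul_const]
        apply integral_congr_ae
        filter_upwards with s
        rw [show y + s + v = y + v + s by ring]
        ring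

theorem ii (hG : Gm G A) {g : ℝ → ℂ} (hg : Continuous g) (a b : ℝ) :
    IntervalIntegrable (fun w => G w * g w) volume a b := by
  have h1 : IntervalIntegrable G volume a b := by
    rw [intervalIntegrable_iff]
    refine Measure.integrableOn_of_bounded (M := A * Real.exp (3 / 4 * (|a| + |b|))) ?_ hG.meas.aestronglyMeasurable ?_
    · exact measure_Ioc_lt_top.ne
    · refine (ae_restrict_iff' measurableSet_uIoc).2 (Filter.Eventually.of_forall fun v hv => ?_)
      refine (hG.bd v).trans (mul_le_mul_of_nonneg_left (Real.exp_le_exp.mpr ?_) hG.pos)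
      have h2 : |v| ≤ |a| + |b| := by
        rcases le_total a b with hab | hab
        · rw [uIoc_of_le hab] at hv
          rw [abs_le]
          constructor
          · have := neg_abs_le a; have := abs_nonneg b; linarith [hv.1]
          · have := le_abs_self b; have := abs_nonneg a; linarith [hv.2]
        · rw [uIoc_of_ge hab] at hv
          rw [abs_le]
          constructor
          · have := neg_abs_le b; have := abs_nonneg a; linarith [hv.1]
          · have := le_abs_self a; have := abs_nonneg b; linarith [hv.2]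
      linarith
  exact h1.mul_continuousOn hg.continuousOn

/-- the exponent -/
noncomputable def cc (θ : ℝ) : ℂ := I * θ - 1 / 2

theorem cc_re (θ : ℝ) : (cc θ).re = -(1 / 2) := by unfold cc; simp

theorem norm_cc (θ v : ℝ) : ‖cexp (cc θ * v)‖ = Real.exp (-(1 / 2) * v) := by
  rw [norm_cexp_mul, cc_re]

noncomputable def Jv (G : ℝ → ℂ) (θ u : ℝ) : ℂ := ∫ w in (0:ℝ)..u, G w * cexp (cc θ * ((u : ℂ) - w))

theorem Jv_eq (G : ℝ → ℂ) (θ u : ℝ) : Jv G θ u = cexp (cc θ * u) * ∫ w in (0:ℝ)..u, G w * cexp (-(cc θ * w)) := by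
  unfold Jv
  rw [← intervalIntegral.integral_const_mul]
  apply intervalIntegral.integral_congr
  intro w _
  show G w * cexp (cc θ * ((u : ℂ) - w)) = cexp (cc θ * u) * (G w * cexp (-(cc θ * w)))
  have : cexp (cc θ * ((u : ℂ) - w)) = cexp (cc θ * u) * cexp (-(cc θ * w)) := by
    rw [← Complex.exp_add]; congr 1; ring
  rw [this]; ring

theorem Jv_cont (hG : Gm G A) (θ : ℝ) : Continuous (Jv G θ) := by
  have h1 : Jv G θ = fun u : ℝ => cexp (cc θ * u) * ∫ w in (0:ℝ)..u, G w * cexp (-(cc θ * w)) := funext fun u => Jv_eq G θ u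
  rw [h1]
  apply Continuous.mul (by fun_prop)
  exact intervalIntegral.continuous_primitive (fun a b => ii hG (by fun_prop) a b) 0

theorem Jv_shift (hG : Gm G A) (θ u h : ℝ) : Jv G θ (u + h) = cexp (cc θ * h) * Jv G θ u +
    ∫ v in (0:ℝ)..h, G (u + v) * cexp (cc θ * ((h : ℂ) - v)) := by
  rw [Jv_eq, Jv_eq]
  have h1 := intervalIntegral.integral_add_adjacent_intervals
    (ii hG (g := fun w : ℝ => cexp (-(cc θ * w))) (by fun_prop) 0 u)
    (ii hG (g := fun w : ℝ => cexp (-(cc θ * w))) (by fun_prop) u (u + h))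
  rw [← h1, mul_add]
  congr 1
  · rw [← mul_assoc, ← Complex.exp_add]
    congr 2
    push_cast; ring
  · have h2 := intervalIntegral.integral_comp_add_left (a := 0) (b := h) (fun w : ℝ => G w * cexp (-(cc θ * w))) u
    rw [add_zero] at h2
    rw [← h2, ← intervalIntegral.integral_const_mul]
    apply intervalIntegral.integral_congr
    intro v _
    show cexp (cc θ * ((u + h : ℝ) : ℂ)) * (G (u + v) * cexp (-(cc θ * ((u + v : ℝ) : ℂ)))) =
      G (u + v) * cexp (cc θ * ((h : ℂ) - v))
    rw [mul_left_comm, ← Complex.exp_add]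
    congr 2
    push_cast; ring

noncomputable def C8 : ℝ := ∫ s : ℝ, Real.exp (-(1 / 4 * |s|))

theorem C8_nonneg : 0 ≤ C8 := integral_nonneg fun _ => (Real.exp_pos _).le

theorem Jv_bd (hG : Gm G A) (θ u : ℝ) : ‖Jv G θ u‖ ≤ A * C8 * Real.exp (3 / 4 * |u|) := by
  have hA := hG.pos
  unfold Jv
  have hi : Integrable (fun w : ℝ => (A * Real.exp (3 / 4 * |u|)) * Real.exp (-(1 / 4 * |w - u|))) := by
    have := (integrable_exp_abs (show (0:ℝ) < 1 / 4 by norm_num)).comp_sub_right u
    exact this.const_mul _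
  refine (intervalIntegral.norm_integral_le_integral_norm_uIoc).trans ?_
  have h1 : ∫ w in uIoc 0 u, ‖G w * cexp (cc θ * ((u : ℂ) - w))‖ ≤
      ∫ w in uIoc 0 u, (A * Real.exp (3 / 4 * |u|)) * Real.exp (-(1 / 4 * |w - u|)) := by
    apply setIntegral_mono_on _ hi.integrableOn measurableSet_uIoc
    · intro w hw
      rw [norm_mul]
      have h2 : ‖cexp (cc θ * ((u : ℂ) - w))‖ = Real.exp (-(1 / 2) * (u - w)) := by
        rw [← Complex.ofReal_sub, norm_cc]
      rw [h2]
      calc ‖G w‖ * Real.exp (-(1 / 2) * (u - w)) ≤ A * Real.exp (3 / 4 * |w|) * Real.exp (-(1 / 2) * (u - w)) :=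
            mul_le_mul_of_nonneg_right (hG.bd w) (Real.exp_pos _).le
        _ = A * Real.exp (3 / 4 * |w| + -(1 / 2) * (u - w)) := by rw [Real.exp_add]; ring
        _ ≤ A * Real.exp (3 / 4 * |u| + -(1 / 4 * |w - u|)) := by
            apply mul_le_mul_of_nonneg_left _ hA
            apply Real.exp_le_exp.mpr
            rcases le_total 0 u with hu | hu
            · rw [uIoc_of_le hu] at hw
              rw [abs_of_pos hw.1, abs_of_nonneg hu, abs_of_nonpos (by linarith [hw.2])]
              linarith [hw.1, hw.2]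
            · rw [uIoc_of_ge hu] at hw
              rw [abs_of_nonpos hw.2, abs_of_nonpos hu, abs_of_nonneg (by linarith [hw.1])]
              linarith [hw.1, hw.2]
        _ = _ := by rw [Real.exp_add]; ring
    · have h3 := (ii hG (g := fun w : ℝ => cexp (cc θ * ((u : ℂ) - w))) (by fun_prop) 0 u).norm
      rw [intervalIntegrable_iff] at h3
      exact h3
  refine h1.trans ((setIntegral_le_integral hi ?_).trans (le_of_eq ?_))
  · filter_upwards with w
    positivity
  · rw [integral_const_mul, integral_sub_right_eq_self (fun w : ℝ => Real.exp (-(1 / 4 * |w|))) u]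
    unfold C8
    ring

/-- the convolution -/
noncomputable def PJ (G : ℝ → ℂ) (θ u : ℝ) : ℂ := G u + I * θ * Jv G θ u

theorem PJ_gm (hG : Gm G A) (θ : ℝ) : Gm (PJ G θ) (A + |θ| * (A * C8)) := by
  have hA := hG.pos
  have hC := C8_nonneg
  refine ⟨?_, by positivity, fun t => ?_⟩
  · unfold PJ
    have h1 := hG.meas
    have h2 := (Jv_cont hG θ).measurable
    fun_prop
  · unfold PJ
    refine (norm_add_le _ _).trans ?_
    rw [norm_mul, norm_mul, Complex.norm_I, one_mul, Complex.norm_real, Real.norm_eq_abs, add_mul]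
    apply add_le_add (hG.bd t)
    calc |θ| * ‖Jv G θ t‖ ≤ |θ| * (A * C8 * Real.exp (3 / 4 * |t|)) := mul_le_mul_of_nonneg_left (Jv_bd hG θ t) (abs_nonneg _)
      _ = _ := by ring

theorem PJ_shift (hG : Gm G A) (θ u h : ℝ) : PJ G θ (u + h) = cexp (cc θ * h) * PJ G θ u + (G (u + h) -
    cexp (cc θ * h) * G u) + I * θ * ∫ v in (0:ℝ)..h, G (u + v) * cexp (cc θ * ((h : ℂ) - v)) := by
  unfold PJ
  rw [Jv_shift hG]
  ring

/-- the kernel integrals of the convolution under shifts -/
theorem T_shift (hG : Gm G A) (θ : ℝ) {φ : ℝ → ℂ} {C : ℝ} (hφ : Dk φ C) {h : ℝ} (hh : 0 ≤ h) (y : ℝ) :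
    ∫ s : ℝ, PJ G θ (y + h + s) * φ s = cexp (cc θ * h) * (∫ s : ℝ, PJ G θ (y + s) * φ s) +
      ((∫ s : ℝ, G (y + h + s) * φ s) - cexp (cc θ * h) * ∫ s : ℝ, G (y + s) * φ s) +
      I * θ * ∫ v in (0:ℝ)..h, (∫ s : ℝ, G (y + v + s) * φ s) * cexp (cc θ * ((h : ℂ) - v)) := by
  have e1 : ∀ s : ℝ, PJ G θ (y + h + s) * φ s = (cexp (cc θ * h) * (PJ G θ (y + s) * φ s) +
      (G (y + h + s) * φ s - cexp (cc θ * h) * (G (y + s) * φ s))) +
      I * θ * ((∫ v in (0:ℝ)..h, G (y + s + v) * cexp (cc θ * ((h : ℂ) - v))) * φ s) := by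
    intro s
    rw [show y + h + s = y + s + h by ring, PJ_shift hG]
    ring
  have i1 := kint (PJ_gm hG θ) hφ y
  have i2 := kint hG hφ (y + h)
  have i3 := kint hG hφ y
  have i4 : Integrable (fun s : ℝ => (∫ v in (0:ℝ)..h, G (y + s + v) * cexp (cc θ * ((h : ℂ) - v))) * φ s) := by
    rcases eq_or_ne θ 0 with rfl | hθ
    · -- the integrand is a difference of integrable functions when `θ ≠ 0`; for `θ = 0` use `θ = 1`
      have key : ∀ s : ℝ, (∫ v in (0:ℝ)..h, G (y + s + v) * cexp (cc 0 * ((h : ℂ) - v))) * φ s =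
          (Jv G 0 (y + h + s) * φ s) - cexp (cc 0 * h) * (Jv G 0 (y + s) * φ s) := by
        intro s
        rw [show y + h + s = y + s + h by ring, Jv_shift hG]
        ring
      simp_rw [key]
      have hJ : Gm (Jv G 0) (A * C8) := ⟨(Jv_cont hG 0).measurable, mul_nonneg hG.pos C8_nonneg, Jv_bd hG 0⟩
      exact (kint hJ hφ (y + h)).sub ((kint hJ hφ y).const_mul _)
    · have key : ∀ s : ℝ, (∫ v in (0:ℝ)..h, G (y + s + v) * cexp (cc θ * ((h : ℂ) - v))) * φ s =
          (Jv G θ (y + h + s) * φ s) - cexp (cc θ * h) * (Jv G θ (y + s) * φ s) := by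
        intro s
        rw [show y + h + s = y + s + h by ring, Jv_shift hG]
        ring
      simp_rw [key]
      have hJ : Gm (Jv G θ) (A * C8) := ⟨(Jv_cont hG θ).measurable, mul_nonneg hG.pos C8_nonneg, Jv_bd hG θ⟩
      exact (kint hJ hφ (y + h)).sub ((kint hJ hφ y).const_mul _)
  have j1 : Integrable (fun s : ℝ => cexp (cc θ * h) * (PJ G θ (y + s) * φ s)) := i1.const_mul _
  have j3 : Integrable (fun s : ℝ => cexp (cc θ * h) * (G (y + s) * φ s)) := i3.const_mul _
  have j2 : Integrable (fun s : ℝ => G (y + h + s) * φ s - cexp (cc θ * h) * (G (y + s) * φ s)) := i2.sub j3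
  have j12 : Integrable (fun s : ℝ => cexp (cc θ * h) * (PJ G θ (y + s) * φ s) +
      (G (y + h + s) * φ s - cexp (cc θ * h) * (G (y + s) * φ s))) := j1.add j2
  have j4 : Integrable (fun s : ℝ => I * θ * ((∫ v in (0:ℝ)..h, G (y + s + v) * cexp (cc θ * ((h : ℂ) - v))) * φ s)) :=
    i4.const_mul _
  simp_rw [e1]
  rw [integral_add j12 j4, integral_add j1 j2, integral_sub i2 j3, integral_const_mul,
    integral_const_mul, integral_const_mul,
    fub hG hφ (g := fun v : ℝ => cexp (cc θ * ((h : ℂ) - v))) (by fun_prop) hh y]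

theorem exp_of_shift {T : ℝ → ℂ} {a : ℂ} (h : ∀ y h : ℝ, 0 ≤ h → T (y + h) = cexp (a * h) * T y) (y : ℝ) :
    T y = cexp (a * y) * T 0 := by
  rcases le_total 0 y with hy | hy
  · have := h 0 y hy
    rwa [zero_add] at this
  · have h1 := h y (-y) (by linarith)
    rw [add_neg_cancel] at h1
    rw [h1, ← mul_assoc, ← Complex.exp_add]
    push_cast
    simp

theorem kr_lap_int (w : ℂ) : Integrable (fun u : ℝ => (kr u : ℂ) * cexp (w * u)) := by
  have := Pool.Agent.Helper71.MR.kr_fast.lap_integrable (-w)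
  simpa using this

theorem Aw_sub (w : ℂ) (s h : ℝ) : Aw kr w (s - h) = cexp (w * h) *
    (Aw kr w s + ∫ v in (0:ℝ)..h, (kr (s - v) : ℂ) * cexp (-(w * v))) := by
  rw [Pool.Agent.Helper71.MR.Aw_right, Pool.Agent.Helper71.MR.Aw_right]
  have hi := kr_lap_int w
  have h1 := intervalIntegral.integral_interval_add_Ioi (a := s - h) (b := s) hi.integrableOn hi.integrableOn
  have h2 := intervalIntegral.integral_comp_sub_left (a := 0) (b := h) (fun u : ℝ => (kr u : ℂ) * cexp (w * u)) s
  rw [sub_zero] at h2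
  rw [← h1, ← h2]
  have h3 : ∫ v in (0:ℝ)..h, (kr (s - v) : ℂ) * cexp (w * ((s - v : ℝ) : ℂ)) =
      cexp (w * s) * ∫ v in (0:ℝ)..h, (kr (s - v) : ℂ) * cexp (-(w * v)) := by
    rw [← intervalIntegral.integral_const_mul]
    apply intervalIntegral.integral_congr
    intro v _
    show (kr (s - v) : ℂ) * cexp (w * ((s - v : ℝ) : ℂ)) = cexp (w * s) * ((kr (s - v) : ℂ) * cexp (-(w * v)))
    rw [mul_left_comm, ← Complex.exp_add]
    congr 2
    push_cast; ring
  rw [h3]
  have h4 : cexp (-(w * ((s - h : ℝ) : ℂ))) = cexp (w * h) * cexp (-(w * s)) := by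
    rw [← Complex.exp_add]; congr 1; push_cast; ring
  have h5 : cexp (-(w * s)) * cexp (w * s) = 1 := by
    rw [← Complex.exp_add]; simp
  rw [h4]
  linear_combination (cexp (w * h) * ∫ v in (0:ℝ)..h, (kr (s - v) : ℂ) * cexp (-(w * v))) * h5

/-- functions annihilated by the kernel have exponential zero functionals -/
theorem Aw_shift (hG : Gm G A) (h0 : ∀ y, ∫ s : ℝ, G (y + s) * (kr s : ℂ) = 0) {w : ℂ} (hw : xi (1 / 2 + w) = 0)
    (y : ℝ) : ∫ s : ℝ, G (y + s) * Aw kr w s = cexp (w * y) * ∫ s : ℝ, G (0 + s) * Aw kr w s := by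
  obtain ⟨CA, hCA⟩ := dk_Aw hw
  obtain ⟨Ck, hCk⟩ := dk_kr
  have hC := hCk.nonneg
  have hA := hG.pos
  refine exp_of_shift (T := fun y : ℝ => ∫ s : ℝ, G (y + s) * Aw kr w s) ?_ y
  intro y h hh
  show ∫ s : ℝ, G (y + h + s) * Aw kr w s = cexp (w * h) * ∫ s : ℝ, G (y + s) * Aw kr w s
  have e0 : ∫ s : ℝ, G (y + h + s) * Aw kr w s = ∫ s : ℝ, G (y + s) * Aw kr w (s - h) := by
    rw [← integral_sub_right_eq_self (fun s : ℝ => G (y + h + s) * Aw kr w s) h]
    apply integral_congr_ae
    filter_upwards with s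
    rw [show y + h + (s - h) = y + s by ring]
  have i1 := kint hG hCA y
  have i0 : Integrable (fun s : ℝ => G (y + s) * Aw kr w (s - h)) := by
    have := (kint hG hCA (y + h)).comp_sub_right h
    refine this.congr ?_
    filter_upwards with s
    rw [show y + h + (s - h) = y + s by ring]
  have e1 : ∀ s : ℝ, G (y + s) * ∫ v in (0:ℝ)..h, (kr (s - v) : ℂ) * cexp (-(w * v)) =
      cexp (-(w * h)) * (G (y + s) * Aw kr w (s - h)) - G (y + s) * Aw kr w s := by
    intro s
    rw [Aw_sub]
    have h5 : cexp (-(w * h)) * cexp (w * h) = 1 := by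
      rw [← Complex.exp_add]; simp
    linear_combination (-(G (y + s) * (Aw kr w s + ∫ v in (0:ℝ)..h, (kr (s - v) : ℂ) * cexp (-(w * v))))) * h5
  have i2 : Integrable (fun s : ℝ => G (y + s) * ∫ v in (0:ℝ)..h, (kr (s - v) : ℂ) * cexp (-(w * v))) := by
    simp_rw [e1]
    exact (i0.const_mul _).sub i1
  have key : ∫ s : ℝ, G (y + s) * ∫ v in (0:ℝ)..h, (kr (s - v) : ℂ) * cexp (-(w * v)) = 0 := by
    have hg : Continuous (fun v : ℝ => cexp (-(w * v))) := by fun_prop
    obtain ⟨M, hM⟩ := (isCompact_Icc (a := (0:ℝ)) (b := h)).exists_bound_of_continuousOn hg.continuousOn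
    have hM0 : 0 ≤ M := (norm_nonneg _).trans (hM 0 ⟨le_rfl, hh⟩)
    have hint : Integrable (Function.uncurry fun s v : ℝ => G (y + s) * ((kr (s - v) : ℂ) * cexp (-(w * v))))
        (volume.prod (volume.restrict (Ioc (0:ℝ) h))) := by
      have h1 : Integrable (fun p : ℝ × ℝ => (A * Real.exp (3 / 4 * |y|) * Ck * Real.exp (2 * h) * M *
          Real.exp (-(1 * |p.1|))) * (1:ℝ)) (volume.prod (volume.restrict (Ioc (0:ℝ) h))) :=
        Integrable.mul_prod (f := fun s : ℝ => A * Real.exp (3 / 4 * |y|) * Ck * Real.exp (2 * h) * M *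
          Real.exp (-(1 * |s|))) (g := fun _ : ℝ => (1:ℝ))
          ((integrable_exp_abs one_pos).const_mul _) (integrable_const 1)
      refine Integrable.mono' h1 ?_ ?_
      · apply Measurable.aestronglyMeasurable
        simp only [Function.uncurry_def]
        have := hG.meas
        have := kr_cont.measurable
        have := hg.measurable
        fun_prop
      · rw [← Measure.restrict_univ (μ := (volume : Measure ℝ)), Measure.prod_restrict]
        filter_upwards [self_mem_ae_restrict (MeasurableSet.univ.prod measurableSet_Ioc)] with p hp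
        have hp2 : p.2 ∈ Ioc 0 h := hp.2
        simp only [Function.uncurry_def]
        rw [norm_mul, norm_mul, mul_one]
        calc ‖G (y + p.1)‖ * (‖(kr (p.1 - p.2) : ℂ)‖ * ‖cexp (-(w * p.2))‖)
            ≤ (A * Real.exp (3 / 4 * |y + p.1|)) * ((Ck * Real.exp (-(2 * |p.1 - p.2|))) * M) := by
              apply mul_le_mul (hG.bd _) _ (by positivity) (by positivity)
              exact mul_le_mul (hCk.exp_bd _) (hM _ ⟨hp2.1.le, hp2.2⟩) (norm_nonneg _) (by positivity)
          _ = A * Ck * M * Real.exp (3 / 4 * |y + p.1| + -(2 * |p.1 - p.2|)) := by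
              rw [Real.exp_add]; ring
          _ ≤ A * Ck * M * Real.exp (3 / 4 * |y| + 2 * h + -(1 * |p.1|)) := by
              apply mul_le_mul_of_nonneg_left _ (by positivity)
              apply Real.exp_le_exp.mpr
              have h3 := abs_add_le y p.1
              have h4 : |p.2| ≤ h := by rw [abs_of_pos hp2.1]; exact hp2.2
              have h5 := abs_add_le (p.1 - p.2) p.2
              rw [sub_add_cancel] at h5
              linarith [abs_nonneg p.1]
          _ = _ := by rw [Real.exp_add, Real.exp_add]; ring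
    have e2 : ∀ s : ℝ, G (y + s) * ∫ v in (0:ℝ)..h, (kr (s - v) : ℂ) * cexp (-(w * v)) =
        ∫ v in Ioc (0:ℝ) h, G (y + s) * ((kr (s - v) : ℂ) * cexp (-(w * v))) := by
      intro s
      rw [intervalIntegral.integral_of_le hh, integral_const_mul]
    simp_rw [e2]
    rw [integral_integral_swap hint]
    have e3 : ∀ v : ℝ, ∫ s : ℝ, G (y + s) * ((kr (s - v) : ℂ) * cexp (-(w * v))) = 0 := by
      intro v
      have h6 : ∫ s : ℝ, G (y + s) * ((kr (s - v) : ℂ) * cexp (-(w * v))) =
          cexp (-(w * v)) * ∫ s : ℝ, G (y + v + s) * (kr s : ℂ) := by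
        rw [← integral_const_mul, ← integral_sub_right_eq_self (fun s : ℝ => cexp (-(w * v)) * (G (y + v + s) * (kr s : ℂ))) v]
        apply integral_congr_ae
        filter_upwards with s
        rw [show y + v + (s - v) = y + s by ring]
        ring
      rw [h6, h0, mul_zero]
    simp_rw [e3]
    simp
  rw [e0]
  have e4 : ∀ s : ℝ, G (y + s) * Aw kr w (s - h) = cexp (w * h) * (G (y + s) * Aw kr w s) +
      cexp (w * h) * (G (y + s) * ∫ v in (0:ℝ)..h, (kr (s - v) : ℂ) * cexp (-(w * v))) := by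
    intro s
    rw [Aw_sub]; ring
  simp_rw [e4]
  rw [integral_add (i1.const_mul _) (i2.const_mul _), integral_const_mul, integral_const_mul, key, mul_zero, add_zero]

end Pool.Agent.Helper52.Tw
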