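import Pool.Agent.Helper52.IT.TwA

/-!
# Project IT (MP_a499ba_nt), twisted systems, part B: `Re (e^{i φ} F_θ)` is a system
-/

set_option autoImplicit false

open Complex Filter Topology MeasureTheory Set
open Pool.Agent.Helper57.Zeta
open Pool.Agent.Helper71.MR (kr kr_pos kr_cont kr_bd kr_lap Aw Aw_meas dk_kr dk_Aw Dk integrable_exp_abs norm_cexp_mul zero_re
  exp_two_ge)
open Pool.Agent.Helper71.MA (Sys Ne Fail Big big_of_fail le_of_big big_re)
open scoped ComplexConjugate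

namespace Pool.Agent.Helper52.Tw

variable {F : ℝ → ℝ} {A : ℝ} {c : ℂ → ℂ}

/-- the function as a complex function -/
noncomputable def cF (F : ℝ → ℝ) (t : ℝ) : ℂ := (F t : ℂ)

theorem cF_gm (hS : Sys F A c) : Gm (cF F) A := by
  refine ⟨?_, hS.pos.le, fun t => ?_⟩
  · have := hS.meas
    unfold cF
    fun_prop
  · unfold cF
    rw [Complex.norm_real, Real.norm_eq_abs]
    exact hS.bd t

theorem xi_cc (θ : ℝ) : xi (1 / 2 + cc θ) ≠ 0 := by
  intro h
  have := zero_re h
  rw [cc_re, abs_neg, abs_of_pos (by norm_num)] at this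
  exact lt_irrefl _ this

/-- the constant -/
noncomputable def kp (F : ℝ → ℝ) (θ : ℝ) : ℂ := -(∫ s : ℝ, PJ (cF F) θ (0 + s) * (kr s : ℂ)) / (1 / 2 * xi (1 / 2 + cc θ))

/-- the twisted function -/
noncomputable def Ft (F : ℝ → ℝ) (θ u : ℝ) : ℂ := PJ (cF F) θ u + kp F θ * cexp (cc θ * u)

/-- the bound -/
noncomputable def At (F : ℝ → ℝ) (A θ : ℝ) : ℝ := (A + |θ| * (A * C8)) + ‖kp F θ‖

theorem Ft_gm (hS : Sys F A c) (θ : ℝ) : Gm (Ft F θ) (At F A θ) := by
  have h := PJ_gm (cF_gm hS) θ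
  refine ⟨?_, add_nonneg h.pos (norm_nonneg _), fun t => ?_⟩
  · have := h.meas
    unfold Ft
    fun_prop
  · unfold Ft At
    refine (norm_add_le _ _).trans ?_
    rw [norm_mul, norm_cc, add_mul]
    apply add_le_add (h.bd t)
    apply mul_le_mul_of_nonneg_left _ (norm_nonneg _)
    apply Real.exp_le_exp.mpr
    have := neg_abs_le t
    have := abs_nonneg t
    linarith

theorem exp_kr (a : ℂ) (y : ℝ) : ∫ s : ℝ, cexp (a * ((y + s : ℝ) : ℂ)) * (kr s : ℂ) = cexp (a * y) * (1 / 2 * xi (1 / 2 + a)) := by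
  rw [← kr_lap, ← integral_const_mul]
  apply integral_congr_ae
  filter_upwards with s
  have : cexp (a * ((y + s : ℝ) : ℂ)) = cexp (a * y) * cexp (a * s) := by
    rw [← Complex.exp_add]; congr 1; push_cast; ring
  rw [this]; ring

theorem exp_gm (θ : ℝ) : Gm (fun u : ℝ => cexp (cc θ * u)) 1 := by
  refine ⟨by fun_prop, zero_le_one, fun t => ?_⟩
  rw [norm_cc, one_mul]
  apply Real.exp_le_exp.mpr
  have := neg_abs_le t
  have := abs_nonneg t
  linarith

theorem Ft_kr (hS : Sys F A c) (θ y : ℝ) : ∫ s : ℝ, Ft F θ (y + s) * (kr s : ℂ) = 0 := by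
  obtain ⟨C, hC⟩ := dk_kr
  have hG := cF_gm hS
  have h0 : ∀ y : ℝ, ∫ s : ℝ, cF F (y + s) * (kr s : ℂ) = 0 := hS.kr0
  have h1 : ∫ s : ℝ, PJ (cF F) θ (y + s) * (kr s : ℂ) = cexp (cc θ * y) * ∫ s : ℝ, PJ (cF F) θ (0 + s) * (kr s : ℂ) := by
    refine exp_of_shift (T := fun y : ℝ => ∫ s : ℝ, PJ (cF F) θ (y + s) * (kr s : ℂ)) ?_ y
    intro y h hh
    show ∫ s : ℝ, PJ (cF F) θ (y + h + s) * (kr s : ℂ) = _
    rw [T_shift hG θ hC hh y]
    simp_rw [h0]
    simp
  have i1 := kint (PJ_gm hG θ) hC y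
  have i2 := kint (exp_gm θ) hC y
  have e1 : ∀ s : ℝ, Ft F θ (y + s) * (kr s : ℂ) = PJ (cF F) θ (y + s) * (kr s : ℂ) +
      kp F θ * (cexp (cc θ * ((y + s : ℝ) : ℂ)) * (kr s : ℂ)) := by
    intro s
    unfold Ft
    ring
  simp_rw [e1]
  have hx := xi_cc θ
  rw [integral_add i1 (i2.const_mul _), integral_const_mul, h1, exp_kr]
  unfold kp
  have hx2 : (1 / 2 * xi (1 / 2 + cc θ) : ℂ) ≠ 0 := mul_ne_zero (by norm_num) hx
  generalize (1 / 2 * xi (1 / 2 + cc θ) : ℂ) = X at hx2 ⊢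
  generalize (∫ s : ℝ, PJ (cF F) θ (0 + s) * (kr s : ℂ)) = T
  have h5 : -T / X * (cexp (cc θ * y) * X) = -T * cexp (cc θ * y) := by
    field_simp
  rw [h5]
  ring

/-- the coefficient -/
noncomputable def cp (c : ℂ → ℂ) (θ : ℝ) (w : ℂ) : ℂ := c w * (w + 1 / 2) / (w - cc θ)

theorem w_ne (θ : ℝ) {w : ℂ} (hw : xi (1 / 2 + w) = 0) : w - cc θ ≠ 0 := by
  intro h
  have h1 : w = cc θ := by linear_combination h
  rw [h1] at hw
  exact xi_cc θ hw

theorem Ft_Aw (hS : Sys F A c) (θ : ℝ) {w : ℂ} (hw : xi (1 / 2 + w) = 0) (t : ℝ) :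
    ∫ s : ℝ, Ft F θ (t + s) * Aw kr w s = cexp (w * t) * cp c θ w := by
  obtain ⟨C, hC⟩ := dk_Aw hw
  have hG := cF_gm hS
  have ha : ∀ y : ℝ, ∫ s : ℝ, cF F (y + s) * Aw kr w s = cexp (w * y) * c w := fun y => hS.aw w hw y
  have hne := w_ne θ hw
  rw [Aw_shift (Ft_gm hS θ) (fun y => Ft_kr hS θ y) hw t]
  congr 1
  -- the value at `0`, from the two shift relations
  have hS1 := Aw_shift (Ft_gm hS θ) (fun y => Ft_kr hS θ y) hw 1
  have hsplit : ∀ y : ℝ, ∫ s : ℝ, Ft F θ (y + s) * Aw kr w s = (∫ s : ℝ, PJ (cF F) θ (y + s) * Aw kr w s) +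
      cexp (cc θ * y) * (kp F θ * ∫ s : ℝ, cexp (cc θ * s) * Aw kr w s) := by
    intro y
    have i1 := kint (PJ_gm hG θ) hC y
    have i2 := kint (exp_gm θ) hC y
    have e1 : ∀ s : ℝ, Ft F θ (y + s) * Aw kr w s = PJ (cF F) θ (y + s) * Aw kr w s +
        kp F θ * (cexp (cc θ * ((y + s : ℝ) : ℂ)) * Aw kr w s) := by
      intro s
      unfold Ft
      ring
    simp_rw [e1]
    rw [integral_add i1 (i2.const_mul _), integral_const_mul]
    have e2 : ∫ s : ℝ, cexp (cc θ * ((y + s : ℝ) : ℂ)) * Aw kr w s =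
        cexp (cc θ * y) * ∫ s : ℝ, cexp (cc θ * s) * Aw kr w s := by
      rw [← integral_const_mul]
      apply integral_congr_ae
      filter_upwards with s
      have : cexp (cc θ * ((y + s : ℝ) : ℂ)) = cexp (cc θ * y) * cexp (cc θ * s) := by
        rw [← Complex.exp_add]; congr 1; push_cast; ring
      rw [this]; ring
    rw [e2]; ring
  have hT := T_shift hG θ hC (h := 1) zero_le_one 0
  simp_rw [ha] at hT
  have hI : ∫ v in (0:ℝ)..1, cexp (w * ((0 + v : ℝ) : ℂ)) * c w * cexp (cc θ * (((1:ℝ) : ℂ) - v)) =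
      c w * ((cexp w - cexp (cc θ)) / (w - cc θ)) := by
    have h1 : ∀ v : ℝ, cexp (w * ((0 + v : ℝ) : ℂ)) * c w * cexp (cc θ * (((1:ℝ) : ℂ) - v)) =
        c w * cexp (cc θ) * cexp ((w - cc θ) * v) := by
      intro v
      have : cexp (cc θ) * cexp ((w - cc θ) * v) = cexp (w * ((0 + v : ℝ) : ℂ)) * cexp (cc θ * (((1:ℝ) : ℂ) - v)) := by
        rw [← Complex.exp_add, ← Complex.exp_add]; congr 1; push_cast; ring
      rw [mul_assoc (c w), this]; ring
    simp_rw [h1]
    rw [intervalIntegral.integral_const_mul, integral_exp_mul_complex hne]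
    have h2 : cexp (cc θ) * cexp ((w - cc θ) * ((1:ℝ) : ℂ)) = cexp w := by
      rw [← Complex.exp_add]; congr 1; push_cast; ring
    rw [Complex.ofReal_zero, mul_zero, Complex.exp_zero]
    field_simp
    linear_combination (c w) * h2
  rw [hI] at hT
  have hs0 := hsplit 0
  have hs1 := hsplit 1
  rw [hS1] at hs1
  rw [zero_add] at hT
  set B0 : ℂ := ∫ s : ℝ, Ft F θ (0 + s) * Aw kr w s with hB0
  set T0 : ℂ := ∫ s : ℝ, PJ (cF F) θ (0 + s) * Aw kr w s with hT0
  set T1 : ℂ := ∫ s : ℝ, PJ (cF F) θ (1 + s) * Aw kr w s with hT1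
  set X : ℂ := kp F θ * ∫ s : ℝ, cexp (cc θ * s) * Aw kr w s with hX
  simp only [Complex.ofReal_one, mul_one, Complex.ofReal_zero, mul_zero, Complex.exp_zero, one_mul] at hT hs0 hs1
  have hdiff : cexp w - cexp (cc θ) ≠ 0 := by
    intro h
    have h1 : cexp w = cexp (cc θ) := by linear_combination h
    have h2 : ‖cexp w‖ = ‖cexp (cc θ)‖ := by rw [h1]
    rw [Complex.norm_exp, Complex.norm_exp] at h2
    have h3 := Real.exp_injective h2
    rw [cc_re] at h3
    have h4 := zero_re hw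
    rw [h3, abs_neg, abs_of_pos (by norm_num)] at h4
    exact lt_irrefl _ h4
  have hkey : B0 * (cexp w - cexp (cc θ)) = (c w * (w + 1 / 2) / (w - cc θ)) * (cexp w - cexp (cc θ)) := by
    have h5 : I * (θ : ℂ) = cc θ + 1 / 2 := by unfold cc; ring
    rw [h5] at hT
    have h6 : (c w * (w + 1 / 2) / (w - cc θ)) * (cexp w - cexp (cc θ)) =
        c w * (cexp w - cexp (cc θ)) + (cc θ + 1 / 2) * (c w * ((cexp w - cexp (cc θ)) / (w - cc θ))) := by
      field_simp
      ring
    rw [h6]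
    linear_combination hs1 - cexp (cc θ) * hs0 + hT
  unfold cp
  exact mul_right_cancel₀ hdiff hkey

theorem Aw_conj (w : ℂ) (s : ℝ) : conj (Aw kr w s) = Aw kr (conj w) s := by
  unfold Aw
  rw [← integral_conj]
  apply integral_congr_ae
  filter_upwards with v
  rw [map_mul, Complex.conj_ofReal, ← Complex.exp_conj, map_mul, Complex.conj_ofReal]

theorem xi_conj_zero {w : ℂ} (hw : xi (1 / 2 + w) = 0) : xi (1 / 2 + conj w) = 0 := by
  have h1 : (1 / 2 + conj w : ℂ) = conj (1 / 2 + w) := by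
    rw [map_add]
    congr 1
    have : (1 / 2 : ℂ) = ((1 / 2 : ℝ) : ℂ) := by push_cast; ring
    rw [this, Complex.conj_ofReal]
  rw [h1, xi_conj, hw, map_zero]

theorem c_conj (hS : Sys F A c) {w : ℂ} (hw : xi (1 / 2 + w) = 0) : c (conj w) = conj (c w) := by
  have h1 := hS.aw w hw 0
  have h2 := hS.aw (conj w) (xi_conj_zero hw) 0
  have h3 : conj (∫ s : ℝ, (F (0 + s) : ℂ) * Aw kr w s) = ∫ s : ℝ, (F (0 + s) : ℂ) * Aw kr (conj w) s := by
    rw [← integral_conj]
    apply integral_congr_ae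
    filter_upwards with s
    rw [map_mul, Complex.conj_ofReal, Aw_conj]
  rw [h1, h2] at h3
  simp only [Complex.ofReal_zero, mul_zero, Complex.exp_zero, one_mul] at h3
  exact h3.symm

/-- the real function -/
noncomputable def Fr (F : ℝ → ℝ) (θ φ u : ℝ) : ℝ := (cexp (I * φ) * Ft F θ u).re

/-- its coefficients -/
noncomputable def cr (c : ℂ → ℂ) (θ φ : ℝ) (w : ℂ) : ℂ :=
  1 / 2 * (cexp (I * φ) * cp c θ w + cexp (-(I * φ)) * conj (cp c θ (conj w)))

theorem norm_ph (φ : ℝ) : ‖cexp (I * φ)‖ = 1 := by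
  rw [mul_comm, Complex.norm_exp_ofReal_mul_I]

theorem Fr_int (hS : Sys F A c) (θ φ : ℝ) {ψ : ℝ → ℂ} {C : ℝ} (hψ : Dk ψ C) (hψ' : Dk (fun s => conj (ψ s)) C) (y : ℝ) :
    ∫ s : ℝ, (Fr F θ φ (y + s) : ℂ) * ψ s = 1 / 2 * (cexp (I * φ) * (∫ s : ℝ, Ft F θ (y + s) * ψ s) +
      cexp (-(I * φ)) * conj (∫ s : ℝ, Ft F θ (y + s) * conj (ψ s))) := by
  have i1 := kint (Ft_gm hS θ) hψ y
  have i2 := kint (Ft_gm hS θ) hψ' y
  have hc : conj (cexp (I * φ)) = cexp (-(I * φ)) := by
    rw [← Complex.exp_conj, map_mul, Complex.conj_I, Complex.conj_ofReal, neg_mul]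
  have i3 : Integrable (fun s : ℝ => conj (Ft F θ (y + s) * conj (ψ s))) := by
    refine Integrable.mono i2 ?_ (Eventually.of_forall fun s => ?_)
    · exact (Complex.continuous_conj.measurable.comp_aemeasurable i2.aemeasurable).aestronglyMeasurable
    · rw [RCLike.norm_conj]
  have e1 : ∀ s : ℝ, (Fr F θ φ (y + s) : ℂ) * ψ s = 1 / 2 * (cexp (I * φ) * (Ft F θ (y + s) * ψ s)) +
      1 / 2 * (cexp (-(I * φ)) * conj (Ft F θ (y + s) * conj (ψ s))) := by
    intro s
    unfold Fr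
    have h1 := Complex.add_conj (cexp (I * φ) * Ft F θ (y + s))
    rw [map_mul, hc] at h1
    rw [map_mul, Complex.conj_conj]
    push_cast at h1
    linear_combination (-(1 / 2) * ψ s) * h1
  simp_rw [e1]
  rw [integral_add ((i1.const_mul _).const_mul _) ((i3.const_mul _).const_mul _), integral_const_mul, integral_const_mul,
    integral_const_mul, integral_const_mul, integral_conj]
  ring

theorem At_pos (hS : Sys F A c) (θ : ℝ) : 0 < At F A θ := by
  have hA := hS.pos
  have := C8_nonneg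
  unfold At
  positivity

theorem Fr_sys (hS : Sys F A c) (θ φ : ℝ) : Sys (Fr F θ φ) (At F A θ) (cr c θ φ) := by
  have hG := Ft_gm hS θ
  refine ⟨?_, At_pos hS θ, fun t => ?_, fun y => ?_, fun w hw t => ?_, fun t => ?_⟩
  · exact Complex.measurable_re.comp (hG.meas.const_mul _)
  · unfold Fr
    refine (Complex.abs_re_le_norm _).trans ?_
    rw [norm_mul, norm_ph, one_mul]
    exact hG.bd t
  · obtain ⟨C, hC⟩ := dk_kr
    have hC' : Dk (fun s => conj ((kr s : ℂ))) C := by
      simpa only [Complex.conj_ofReal] using hC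
    rw [Fr_int hS θ φ hC hC' y, Ft_kr hS]
    simp only [Complex.conj_ofReal, Ft_kr hS, map_zero, mul_zero, add_zero]
  · obtain ⟨C, hC⟩ := dk_Aw hw
    have hC' : Dk (fun s => conj (Aw kr w s)) C := by
      refine ⟨Complex.continuous_conj.measurable.comp hC.meas, fun u => ?_⟩
      rw [RCLike.norm_conj]
      exact hC.bd u
    rw [Fr_int hS θ φ hC hC' t, Ft_Aw hS θ hw t]
    simp only [Aw_conj]
    rw [Ft_Aw hS θ (xi_conj_zero hw) t, map_mul, ← Complex.exp_conj, map_mul, Complex.conj_conj, Complex.conj_ofReal]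
    unfold cr
    ring
  · have h1 : Tendsto (fun u => Ft F θ u) (𝓝[≥] t) (𝓝 (Ft F θ t)) := by
      unfold Ft PJ
      apply Tendsto.add
      · apply Tendsto.add
        · exact (Complex.continuous_ofReal.tendsto _).comp (hS.right t)
        · exact (((Jv_cont (cF_gm hS) θ).tendsto t).mono_left nhdsWithin_le_nhds).const_mul _
      · have hcont : Continuous (fun u : ℝ => kp F θ * cexp (cc θ * u)) := by fun_prop
        exact (hcont.tendsto t).mono_left nhdsWithin_le_nhds
    exact (Complex.continuous_re.tendsto _).comp (h1.const_mul _)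

theorem zero_im {w : ℂ} (hw : xi (1 / 2 + w) = 0) : w.im ≠ 0 := by
  intro h
  have h1 : w = (w.re : ℂ) := by
    apply Complex.ext <;> simp [h]
  have h2 := kr_lap w
  rw [hw, mul_zero] at h2
  have hi := kr_lap_int w
  have h3 : ∫ u : ℝ, ((kr u * Real.exp (w.re * u) : ℝ) : ℂ) = 0 := by
    rw [← h2]
    apply integral_congr_ae
    filter_upwards with u
    rw [h1]
    push_cast
    simp
  rw [integral_complex_ofReal] at h3
  have h4 : ∫ u : ℝ, kr u * Real.exp (w.re * u) = 0 := by exact_mod_cast h3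
  have hi2 : Integrable (fun u : ℝ => kr u * Real.exp (w.re * u)) := by
    refine hi.norm.congr ?_
    filter_upwards with u
    rw [norm_mul, norm_cexp_mul, Complex.norm_real, Real.norm_of_nonneg (kr_pos u).le]
  rw [integral_eq_zero_iff_of_nonneg (fun u => mul_nonneg (kr_pos u).le (Real.exp_pos _).le) hi2] at h4
  have h5 : ∀ᵐ u : ℝ, False := by
    filter_upwards [h4] with u hu
    have := mul_pos (kr_pos u) (Real.exp_pos (w.re * u))
    simp only [Pi.zero_apply] at hu
    linarith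
  rw [ae_iff] at h5
  simp at h5

theorem cr_ne (hS : Sys F A c) {ς : ℝ} (hne : Ne c ς) {θ : ℝ} (hθ : θ ≠ 0) (φ : ℝ) : Ne (cr c θ φ) ς := by
  intro w hw hre h0
  have hc := hne w hw hre
  have h1 := w_ne θ hw
  have h2 := w_ne θ (xi_conj_zero hw)
  have h3 : w + 1 / 2 ≠ 0 := by
    intro h
    have h4 : w = -(1 / 2) := by linear_combination h
    have h5 := zero_im hw
    rw [h4] at h5
    apply h5
    norm_num
  have hcc : conj (cc θ) = -(I * θ) - 1 / 2 := by
    unfold cc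
    rw [map_sub, map_mul, Complex.conj_I, Complex.conj_ofReal]
    have : (1 / 2 : ℂ) = ((1 / 2 : ℝ) : ℂ) := by push_cast; ring
    rw [this, Complex.conj_ofReal]
    ring
  have h6 : w - conj (cc θ) ≠ 0 := by
    intro h
    apply h2
    have := congrArg conj h
    rw [map_sub, Complex.conj_conj, map_zero] at this
    exact this
  have h7 : conj (cp c θ (conj w)) = c w * (w + 1 / 2) / (w - conj (cc θ)) := by
    unfold cp
    have e1 : conj (conj w + 1 / 2) = w + 1 / 2 := by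
      rw [map_add, Complex.conj_conj]
      congr 1
      have : (1 / 2 : ℂ) = ((1 / 2 : ℝ) : ℂ) := by push_cast; ring
      rw [this, Complex.conj_ofReal]
    rw [map_div₀, map_mul, e1, map_sub, Complex.conj_conj, c_conj hS hw, Complex.conj_conj]
  unfold cr at h0
  rw [h7] at h0
  unfold cp at h0
  have h8 : cexp (I * φ) * (w - conj (cc θ)) + cexp (-(I * φ)) * (w - cc θ) = 0 := by
    have h9 : 1 / 2 * (cexp (I * φ) * (c w * (w + 1 / 2) / (w - cc θ)) +
        cexp (-(I * φ)) * (c w * (w + 1 / 2) / (w - conj (cc θ)))) =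
        (1 / 2 * c w * (w + 1 / 2) / ((w - cc θ) * (w - conj (cc θ)))) *
          (cexp (I * φ) * (w - conj (cc θ)) + cexp (-(I * φ)) * (w - cc θ)) := by
      field_simp
    rw [h9] at h0
    rcases mul_eq_zero.1 h0 with h | h
    · exfalso
      rw [div_eq_zero_iff] at h
      rcases h with h | h
      · rcases mul_eq_zero.1 h with h | h
        · rcases mul_eq_zero.1 h with h | h
          · norm_num at h
          · exact hc h
        · exact h3 h
      · rcases mul_eq_zero.1 h with h | h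
        · exact h1 h
        · exact h6 h
    · exact h
  rw [hcc] at h8
  have h10 : (w + 1 / 2) * (Real.cos φ : ℂ) = (θ : ℂ) * (Real.sin φ : ℂ) := by
    have e1 : cexp (I * φ) = (Real.cos φ : ℂ) + (Real.sin φ : ℂ) * I := by
      rw [mul_comm, Complex.exp_mul_I, Complex.ofReal_cos, Complex.ofReal_sin]
    have e2 : cexp (-(I * φ)) = (Real.cos φ : ℂ) - (Real.sin φ : ℂ) * I := by
      rw [show -(I * (φ : ℂ)) = (-(φ : ℂ)) * I by ring, Complex.exp_mul_I, Complex.cos_neg, Complex.sin_neg,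
        Complex.ofReal_cos, Complex.ofReal_sin]
      ring
    rw [e1, e2] at h8
    unfold cc at h8
    have hI : I * I = -1 := Complex.I_mul_I
    linear_combination (1 / 2) * h8 - (Real.sin φ : ℂ) * (θ : ℂ) * hI
  have h11 := congrArg Complex.im h10
  have h12 := congrArg Complex.re h10
  simp only [Complex.mul_im, Complex.add_im, Complex.ofReal_re, Complex.ofReal_im, Complex.mul_re, Complex.add_re] at h11 h12
  norm_num at h11 h12
  rcases h11 with h11 | h11
  · exact zero_im hw h11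
  · rw [h11, mul_zero] at h12
    have h13 := Real.sin_sq_add_cos_sq φ
    rw [h11] at h13
    rcases mul_eq_zero.1 h12.symm with h | h
    · exact hθ h
    · rw [h] at h13; norm_num at h13

/-- one-sided recurrence for the twisted function -/
theorem tw_le (hS : Sys F A c) (hne : Pool.Agent.Helper71.MA.Ne c 1) {θ : ℝ} (hθ : θ ≠ 0) {φ B : ℝ}
    (h : ∀ η : ℝ, 0 < η → ∀ᶠ u : ℝ in atTop, (cexp (I * φ) * Ft F θ u).re ≤ B + η) :
    (∀ u : ℝ, (cexp (I * φ) * Ft F θ u).re ≤ B) ∧ ∀ w, xi (1 / 2 + w) = 0 → w.re = 0 := by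
  have hS' := Fr_sys hS θ φ
  have hne' := cr_ne hS hne hθ φ
  have key : ∀ η : ℝ, 0 < η → ∃ C4 : ℝ, 0 ≤ C4 ∧ Big (Fr F θ φ) 1 (B + η) C4 1 := by
    intro η hη
    apply big_of_fail hS' (by simp) (Or.inl rfl)
    intro C
    obtain ⟨U, hU⟩ := (eventually_atTop.1 (h η hη))
    refine ⟨max C U, le_max_left _ _, fun t ht => ?_⟩
    rw [one_mul, one_mul]
    exact hU t ((le_max_right _ _).trans ht.1)
  constructor
  · intro u
    apply le_of_forall_pos_le_add
    intro η hη
    obtain ⟨C4, h4, hB⟩ := key η hη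
    have := le_of_big hS' (Or.inl rfl) hne' h4 hB u
    rwa [one_mul] at this
  · intro w hw
    obtain ⟨C4, h4, hB⟩ := key 1 one_pos
    exact big_re hS' (Or.inl rfl) hne' hB hw

end Pool.Agent.Helper52.Tw
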